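import Pool.Agent.H66.BES.Defs

set_option autoImplicit false

/-!
# Project BES, parts DEG and LIN (helper122 for helper66)
-/

namespace Pool.Agent.H66.BES

open Finset SimpleGraph TripartiteFromTriangles

/-- the pairs lost when one element is removed -/
theorem deg_pairs {α : Type} [DecidableEq α] (R : α → α → Prop) (hR : ∀ x y, R x y → R y x)
    [DecidableRel R] (G : Finset α) (t : α) :
    ((G ×ˢ G).filter fun p => R p.1 p.2).card ≤
      (((G.erase t) ×ˢ (G.erase t)).filter fun p => R p.1 p.2).card +
        2 * (G.filter fun u => R t u).card := by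
  have hsub : (G ×ˢ G).filter (fun p => R p.1 p.2) ⊆
      (((G.erase t) ×ˢ (G.erase t)).filter fun p => R p.1 p.2) ∪
        (((G.filter fun u => R t u).image fun u => (t, u)) ∪
          ((G.filter fun u => R t u).image fun u => (u, t))) := by
    rintro ⟨x, y⟩ hp
    simp only [mem_filter, mem_product] at hp
    obtain ⟨⟨hx, hy⟩, hxy⟩ := hp
    simp only [mem_union, mem_filter, mem_product, mem_erase, mem_image, Prod.mk.injEq]
    by_cases h1 : x = t
    · subst h1
      exact Or.inr (Or.inl ⟨y, ⟨hy, hxy⟩, rfl, rfl⟩)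
    · by_cases h2 : y = t
      · subst h2
        exact Or.inr (Or.inr ⟨x, ⟨hx, hR _ _ hxy⟩, rfl, rfl⟩)
      · exact Or.inl ⟨⟨⟨h1, hx⟩, ⟨h2, hy⟩⟩, hxy⟩
  calc ((G ×ˢ G).filter fun p => R p.1 p.2).card ≤ _ := card_le_card hsub
    _ ≤ _ := card_union_le _ _
    _ ≤ _ := by
      refine Nat.add_le_add_left ?_ _
      refine (card_union_le _ _).trans ?_
      have h1 := card_image_le (s := G.filter fun u => R t u) (f := fun u => (t, u))
      have h2 := card_image_le (s := G.filter fun u => R t u) (f := fun u => (u, t))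
      omega

theorem t_mindeg : S_mindeg := by
  intro α _ R hR _ M G
  induction G using Finset.strongInduction with
  | H G ih =>
    intro hG
    by_cases hall : ∀ t ∈ G, M < (G.filter fun u => R t u).card
    · refine ⟨G, subset_rfl, ?_, hall⟩
      rw [nonempty_iff_ne_empty]
      rintro rfl
      simp at hG
    · push Not at hall
      obtain ⟨t, ht, htM⟩ := hall
      have h1 := deg_pairs R hR G t
      have h2 : (G.erase t).card + 1 = G.card := card_erase_add_one ht
      have h3 : 2 * M * (G.erase t).card <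
          (((G.erase t) ×ˢ (G.erase t)).filter fun p => R p.1 p.2).card := by
        rw [← h2] at hG
        have h4 : 2 * M * ((G.erase t).card + 1) = 2 * M * (G.erase t).card + 2 * M := by ring
        omega
      obtain ⟨G', hG', hne, hdeg⟩ := ih (G.erase t) (erase_ssubset ht) h3
      exact ⟨G', hG'.trans (erase_subset _ _), hne, hdeg⟩

theorem t_lin (hg : S_growth) : S_lin := by
  intro V _ _ k e F B G W S hWS
  obtain ⟨h2, h0, hF⟩ := hWS
  by_cases hbig : ∃ a c : V, e + k + 2 < (G.filter fun t => (t.1, t.2.2) = (a, c)).card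
  · left
    obtain ⟨a, c, hac⟩ := hbig
    set G1 := G.filter fun t => (t.1, t.2.2) = (a, c) with hG1
    have hF1 : Fam k F B G1 W S := fun t ht => hF t (mem_of_mem_filter t ht)
    refine hg V k e F B G1 W S hF1 (card_pos.1 (by omega)) ?_
    intro U hU t0 ht0 hWU
    have e0 : t0.1 = a ∧ t0.2.2 = c := by
      have := (mem_filter.1 ht0).2
      simpa using this
    have g0 := (hF1 t0 ht0).1
    have haU : a ∈ U := by rw [← e0.1]; exact hWU g0.xW
    have hcU : c ∈ U := by rw [← e0.2]; exact hWU g0.zW
    -- some middle mark is not in `U`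
    have hex : ∃ t ∈ G1, t.2.1 ∉ U := by
      by_contra hno
      push Not at hno
      have h3 : G1.card ≤ U.card := by
        refine card_le_card_of_injOn (fun t => t.2.1) hno ?_
        intro t ht t' ht' htt
        have e1 : t.1 = a ∧ t.2.2 = c := by
          have := (mem_filter.1 (mem_coe.1 ht)).2
          simpa using this
        have e2 : t'.1 = a ∧ t'.2.2 = c := by
          have := (mem_filter.1 (mem_coe.1 ht')).2
          simpa using this
        simp only at htt
        refine Prod.ext (e1.1.trans e2.1.symm) (Prod.ext htt (e1.2.trans e2.2.symm))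
      omega
    obtain ⟨t, ht, htU⟩ := hex
    have e1 : t.1 = a ∧ t.2.2 = c := by
      have := (mem_filter.1 ht).2
      simpa using this
    have gt := (hF1 t ht).1
    refine ⟨t, ht, fun h => htU (h gt.yW), a, Or.inl e1.1.symm, haU, c, hcU, ?_, ?_, ?_⟩
    · rw [← e1.2]; exact gt.zW
    · rw [← e1.2]; exact gt.zB
    · rw [← e1.2, ← e1.1]; exact gt.xz.symm
  · right
    push Not at hbig
    have hch : ∀ p : V × V, ∃ t : V × V × V,
        p ∈ G.image (fun t => (t.1, t.2.2)) → t ∈ G ∧ (t.1, t.2.2) = p := by
      intro p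
      by_cases hp : p ∈ G.image (fun t => (t.1, t.2.2))
      · obtain ⟨t, ht, htp⟩ := mem_image.1 hp
        exact ⟨t, fun _ => ⟨ht, htp⟩⟩
      · exact ⟨(p.1, p.1, p.1), fun h => absurd h hp⟩
    choose φ hφ using hch
    set P := G.image (fun t => (t.1, t.2.2)) with hP
    have hsub : P.image φ ⊆ G := by
      intro t ht
      obtain ⟨p, hp, rfl⟩ := mem_image.1 ht
      exact (hφ p hp).1
    have hkey : ∀ t ∈ P.image φ, ∀ t' ∈ P.image φ, (t.1, t.2.2) = (t'.1, t'.2.2) → t = t' := by
      intro t ht t' ht' h
      obtain ⟨p, hp, rfl⟩ := mem_image.1 ht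
      obtain ⟨p', hp', rfl⟩ := mem_image.1 ht'
      rw [(hφ p hp).2, (hφ p' hp').2] at h
      rw [h]
    refine ⟨P.image φ, hsub, ⟨?_, fun t ht => hF t (hsub ht)⟩, ?_⟩
    · refine ⟨?_, ?_, ?_⟩
      · intro a b c a' h h'
        exact h0 a a' b c (hsub h) (hsub h')
      · intro a b c b' h h'
        have := hkey _ h _ h' rfl
        exact congrArg (fun t : V × V × V => t.2.1) this
      · intro a b c c' h h'
        exact h2 a b c c' (hsub h) (hsub h')
    · have hc1 : (P.image φ).card = P.card := by
        refine card_image_of_injOn ?_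
        intro p hp p' hp' h
        have h3 := (hφ p (mem_coe.1 hp)).2
        have h4 := (hφ p' (mem_coe.1 hp')).2
        rw [← h3, ← h4, h]
      rw [hc1, hP]
      refine card_le_mul_card_image G _ ?_
      rintro ⟨a, c⟩ _
      exact hbig a c

end Pool.Agent.H66.BES
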