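import Pool.Agent.H66.BES.Defs

set_option autoImplicit false

/-!
# The growth lemma (task GROW, by helper675)
-/

namespace Pool.Agent.H66.BES

open Finset

/-- an increasing chain hits every intermediate number of edges -/
theorem growth_chain {E : Type*} [DecidableEq E] (N e : ℕ) (T : Finset E) (c : ℕ → Finset E)
    (hc : ∀ i ≤ N, (c i).card = i) (hmono : ∀ i j, i ≤ j → j ≤ N → c i ⊆ c j)
    (h0 : T.card < e) (h1 : e ≤ (T ∪ c N).card) : ∃ i ≤ N, (T ∪ c i).card = e := by
  classical
  have hex : ∃ i, i ≤ N ∧ e ≤ (T ∪ c i).card := ⟨N, le_rfl, h1⟩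
  obtain ⟨hi1, hi2⟩ := Nat.find_spec hex
  set i := Nat.find hex with hi
  have hne : i ≠ 0 := by
    intro h
    have h2 : c i = ∅ := by
      rw [← Finset.card_eq_zero, hc i hi1, h]
    rw [h2, Finset.union_empty] at hi2
    omega
  obtain ⟨j, hj⟩ := Nat.exists_eq_succ_of_ne_zero hne
  have hj1 : j < i := by omega
  have hjN : j ≤ N := by omega
  have h3 : ¬ (j ≤ N ∧ e ≤ (T ∪ c j).card) := Nat.find_min hex hj1
  have h4 : (T ∪ c j).card < e := by
    by_contra h
    exact h3 ⟨hjN, not_lt.1 h⟩
  have h5 : c j ⊆ c i := hmono j i hj1.le hi1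
  have h6 : (c i \ c j).card = 1 := by
    rw [Finset.card_sdiff_of_subset h5, hc i hi1, hc j hjN]
    omega
  have h7 : T ∪ c i ⊆ (T ∪ c j) ∪ (c i \ c j) := by
    intro x hx
    rw [mem_union] at hx
    rw [mem_union, mem_union, mem_sdiff]
    by_cases hxj : x ∈ c j
    · exact Or.inl (Or.inr hxj)
    · rcases hx with hx | hx
      · exact Or.inl (Or.inl hx)
      · exact Or.inr ⟨hx, hxj⟩
  have h8 : (T ∪ c i).card ≤ (T ∪ c j).card + 1 := by
    calc (T ∪ c i).card ≤ ((T ∪ c j) ∪ (c i \ c j)).card := Finset.card_le_card h7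
      _ ≤ (T ∪ c j).card + (c i \ c j).card := Finset.card_union_le _ _
      _ = (T ∪ c j).card + 1 := by rw [h6]
  exact ⟨i, hi1, by omega⟩

theorem t_growth : S_growth := by
  classical
  intro V _ _ k e F B G W S hF hG hatt
  by_cases hek : e ≤ 3 ^ k
  · -- few edges: use a chain
    obtain ⟨t0, ht0⟩ := hG
    obtain ⟨hgood, hSF⟩ := hF t0 ht0
    obtain ⟨c, hc1, hc2, hc3, hc4⟩ := hgood.ch1
    refine ⟨c e, ?_, hc1 e hek, ?_⟩
    · refine (hc2 e (3 ^ k) hek le_rfl).trans ?_
      rw [hc3]
      exact hSF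
    · have h1 := hc4 e hek
      have h2 : ((c e).biUnion id).card ≤ ((c e).biUnion id ∪ (B ∪ {t0.1, t0.2.1})).card :=
        Finset.card_le_card Finset.subset_union_left
      omega
  · push Not at hek
    -- the pairs
    set P : Finset (Finset V × Finset (Finset V)) := univ.filter (fun q =>
      B ⊆ q.1 ∧ q.2 ⊆ F ∧ (∀ f ∈ q.2, f ⊆ q.1) ∧ q.1.card ≤ q.2.card + k + 2 ∧
        q.2.card < e ∧ ∃ t0 ∈ G, W t0 ⊆ q.1) with hP
    have hPne : P.Nonempty := by
      obtain ⟨t0, ht0⟩ := hG
      obtain ⟨hgood, hSF⟩ := hF t0 ht0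
      refine ⟨(W t0, S t0), ?_⟩
      rw [hP, mem_filter]
      refine ⟨mem_univ _, hgood.BW, hSF, hgood.sub, ?_, ?_, t0, ht0, subset_rfl⟩
      · have h1 := hgood.cW
        have h2 := hgood.cS
        show (W t0).card ≤ (S t0).card + k + 2
        omega
      · have h2 := hgood.cS
        show (S t0).card < e
        omega
    obtain ⟨⟨U, T⟩, hUT, hmax⟩ := Finset.exists_max_image P (fun q => q.1.card) hPne
    rw [hP, mem_filter] at hUT
    obtain ⟨-, hBU, hTF, hTU, hcard, hTe, t0, ht0, hWU⟩ := hUT
    dsimp only at hBU hTF hTU hcard hTe hWU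
    have hUe : U.card ≤ e + k + 2 := by omega
    obtain ⟨t, htG, hWt, m, hm, hmU, v, hvU, hvW, hvB, hvm⟩ := hatt U hUe t0 ht0 hWU
    obtain ⟨hgood, hSF⟩ := hF t htG
    have hmW : m ∈ W t := by
      rcases hm with h | h | h
      · rw [h]; exact hgood.xW
      · rw [h]; exact hgood.yW
      · rw [h]; exact hgood.zW
    have hmB : m ∉ B := by
      rcases hm with h | h | h
      · rw [h]; exact hgood.xB
      · rw [h]; exact hgood.yB
      · rw [h]; exact hgood.zB
    have hr2 := hgood.r2 (U ∩ W t) inter_subset_right (T ∩ S t) inter_subset_right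
      (subset_inter hBU hgood.BW)
      (fun f hf => subset_inter (hTU f (mem_inter.1 hf).1) (hgood.sub f (mem_inter.1 hf).2))
      m (mem_inter.2 ⟨hmU, hmW⟩) hm v (mem_inter.2 ⟨hvU, hvW⟩) hvB hvm
    have hU1 := Finset.card_union_add_card_inter U (W t)
    have hT1 := Finset.card_union_add_card_inter T (S t)
    have hcW := hgood.cW
    have hcS := hgood.cS
    have hU2 : (U ∪ W t).card ≤ (T ∪ S t).card + k + 2 := by omega
    have hU3 : U.card < (U ∪ W t).card := by
      refine Finset.card_lt_card ?_
      rw [Finset.ssubset_iff_subset_ne]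
      refine ⟨subset_union_left, fun h => hWt ?_⟩
      rw [h]
      exact subset_union_right
    by_cases hTe' : (T ∪ S t).card < e
    · exfalso
      have hmem : (U ∪ W t, T ∪ S t) ∈ P := by
        rw [hP, mem_filter]
        refine ⟨mem_univ _, hBU.trans subset_union_left, union_subset hTF hSF, ?_, hU2, hTe',
          t0, ht0, hWU.trans subset_union_left⟩
        intro f hf
        rcases mem_union.1 hf with h | h
        · exact (hTU f h).trans subset_union_left
        · exact (hgood.sub f h).trans subset_union_right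
      have h2 := hmax _ hmem
      dsimp only at h2
      omega
    · push Not at hTe'
      -- the chain for the pair of marks containing `m`
      have hchain : ∃ (x' y' : V), x' ∈ W t ∧ y' ∈ W t ∧ (m = x' ∨ m = y') ∧
          Chain k B x' y' (S t) := by
        rcases hm with h | h | h
        · exact ⟨t.1, t.2.1, hgood.xW, hgood.yW, Or.inl h, hgood.ch1⟩
        · exact ⟨t.1, t.2.1, hgood.xW, hgood.yW, Or.inr h, hgood.ch1⟩
        · exact ⟨t.2.2, t.2.1, hgood.zW, hgood.yW, Or.inl h, hgood.ch2⟩
      obtain ⟨x', y', hx', hy', hmxy, c, hc1, hc2, hc3, hc4⟩ := hchain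
      obtain ⟨i, hi, hcardi⟩ := growth_chain (3 ^ k) e T c hc1 hc2 hTe (by rw [hc3]; exact hTe')
      have hciS : c i ⊆ S t := by
        rw [← hc3]
        exact hc2 i (3 ^ k) hi le_rfl
      set Ui : Finset V := (c i).biUnion id ∪ (B ∪ {x', y'}) with hUi
      have hUicard : Ui.card ≤ i + k + 2 := hc4 i hi
      have hUiW : Ui ⊆ W t := by
        rw [hUi]
        refine union_subset ?_ (union_subset hgood.BW ?_)
        · intro u hu
          rw [mem_biUnion] at hu
          obtain ⟨f, hf, hu⟩ := hu
          exact hgood.sub f (hciS hf) hu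
        · intro u hu
          rw [mem_insert, mem_singleton] at hu
          rcases hu with h | h
          · rw [h]; exact hx'
          · rw [h]; exact hy'
      have hBUi : B ⊆ Ui := by
        rw [hUi]
        exact subset_union_left.trans subset_union_right
      have hmUi : m ∈ Ui := by
        rw [hUi, mem_union, mem_union, mem_insert, mem_singleton]
        exact Or.inr (Or.inr hmxy)
      have hfUi : ∀ f ∈ c i, f ⊆ Ui := by
        intro f hf u hu
        rw [hUi, mem_union, mem_biUnion]
        exact Or.inl ⟨f, hf, hu⟩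
      have hr1 := hgood.r1 (U ∩ Ui) (inter_subset_right.trans hUiW) (T ∩ c i)
        (inter_subset_right.trans hciS) (subset_inter hBU hBUi)
        (fun f hf => subset_inter (hTU f (mem_inter.1 hf).1) (hfUi f (mem_inter.1 hf).2))
        m (mem_inter.2 ⟨hmU, hmUi⟩) hmB
      have hU4 := Finset.card_union_add_card_inter U Ui
      have hT4 := Finset.card_union_add_card_inter T (c i)
      have hci := hc1 i hi
      refine ⟨T ∪ c i, union_subset hTF (hciS.trans hSF), hcardi, ?_⟩
      have hsub : (T ∪ c i).biUnion id ⊆ U ∪ Ui := by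
        intro u hu
        rw [mem_biUnion] at hu
        obtain ⟨f, hf, hu⟩ := hu
        rcases mem_union.1 hf with h | h
        · exact mem_union_left _ (hTU f h hu)
        · exact mem_union_right _ (hfUi f h hu)
      have hle := Finset.card_le_card hsub
      omega

end Pool.Agent.H66.BES
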