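import Pool.Agent.H66.BES.Defs

set_option autoImplicit false

namespace Pool.Agent.H66.BES

open Finset SimpleGraph TripartiteFromTriangles Sum3

theorem t_zero : S_zero := by
  intro V _ x y z hxy hxz hyz
  have hW : ({x, y, z} : Finset V).card = 3 := by
    rw [card_insert_of_notMem (by simp [hxy, hxz]), card_pair hyz]
  have hT : ∀ T ⊆ ({{x, y, z}} : Finset (Finset V)), T = ∅ ∨ T = {{x, y, z}} := fun T hT =>
    subset_singleton_iff.1 hT
  have hU : ∀ U ⊆ ({x, y, z} : Finset V), (∀ f ∈ ({{x, y, z}} : Finset (Finset V)), f ⊆ U) →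
      U.card = 3 := by
    intro U h1 h2
    rw [subset_antisymm h1 (h2 _ (mem_singleton_self _)), hW]
  have hch : ∀ u v : V, u ≠ v → ({u, v} : Finset V) ⊆ {x, y, z} →
      Chain 0 ∅ u v {{x, y, z}} := by
    intro u v huv hsub
    refine ⟨fun i => if i = 0 then ∅ else {{x, y, z}}, ?_, ?_, ?_, ?_⟩
    · intro i hi
      rw [pow_zero] at hi
      rcases Nat.le_one_iff_eq_zero_or_eq_one.1 hi with rfl | rfl
      · simp
      · simp
    · intro i j hij hj
      rw [pow_zero] at hj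
      rcases Nat.eq_zero_or_pos i with rfl | hi
      · simp
      · beta_reduce
        rw [if_neg (by omega), if_neg (by omega)]
    · simp
    · intro i hi
      rw [pow_zero] at hi
      rcases Nat.le_one_iff_eq_zero_or_eq_one.1 hi with rfl | rfl
      · simp [card_pair huv]
      · have h1 : ((if (1 : ℕ) = 0 then (∅ : Finset (Finset V)) else {{x, y, z}}).biUnion id ∪
            (∅ ∪ {u, v})) = {x, y, z} := by
          rw [if_neg one_ne_zero, singleton_biUnion, empty_union, id, union_eq_left.2 hsub]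
        show ((if (1 : ℕ) = 0 then (∅ : Finset (Finset V)) else {{x, y, z}}).biUnion id ∪
            (∅ ∪ {u, v})).card ≤ _
        rw [h1, hW]
  refine ⟨rfl, empty_subset _, by simp, by simp, by simp, by simp, by simp, by simp, hxy, hxz, hyz,
    by simp, by simp, by rw [hW]; rfl, ?_, ?_, ?_, hch x y hxy (by simp [insert_subset_iff]),
    hch z y hyz.symm (by simp [insert_subset_iff])⟩
  · intro U hUW T hTS _ hf
    rcases hT T hTS with rfl | rfl
    · simp
    · rw [hU U hUW hf]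
      simp
  · intro U hUW T hTS _ hf v hv _
    rcases hT T hTS with rfl | rfl
    · simp only [card_empty, zero_add]
      exact card_pos.2 ⟨v, hv⟩
    · rw [hU U hUW hf]
      simp
  · intro U hUW T hTS _ hf m hm _ v hv _ hvm
    rcases hT T hTS with rfl | rfl
    · simp only [card_empty, zero_add]
      exact one_lt_card.2 ⟨m, hm, v, hv, hvm.symm⟩
    · rw [hU U hUW hf]
      simp

lemma card_le_sq {n : ℕ} (F : Finset (Fin n × Fin n × Fin n)) (hF : ExplicitDisjoint F) :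
    F.card ≤ n ^ 2 := by
  have h1 : (F.image fun t => (t.1, t.2.1)).card = F.card := by
    refine card_image_of_injOn ?_
    rintro ⟨a, b, c⟩ h1 ⟨a', b', c'⟩ h2 h3
    simp only [Prod.mk.injEq] at h3
    obtain ⟨rfl, rfl⟩ := h3
    have h4 := hF.inj₂ (mem_coe.1 h1) (mem_coe.1 h2)
    rw [h4]
  rw [← h1]
  refine (card_le_univ _).trans ?_
  simp [Fintype.card_prod, sq]

theorem t_tri : S_tri := by
  classical
  intro c hc
  have hc9 : 0 < c / 9 := by positivity
  obtain ⟨δ, hδ⟩ : ∃ δ : ℝ, δ = triangleRemovalBound (c / 9) := ⟨_, rfl⟩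
  have hδ0 : 0 < δ := by rw [hδ]; exact triangleRemovalBound_pos hc9
  refine ⟨δ, hδ0, ⌈1 / δ⌉₊ + 1, ?_⟩
  intro n hn F hF hcard
  have hn1 : 1 ≤ n := by omega
  have hnδ : 1 ≤ δ * n := by
    have h1 : 1 / δ ≤ (n : ℝ) := (Nat.le_ceil _).trans (by exact_mod_cast (by omega : ⌈1 / δ⌉₊ ≤ n))
    rw [div_le_iff₀ hδ0] at h1
    linarith
  have hn0 : (0 : ℝ) < n := by exact_mod_cast hn1
  have hfar : (graph F).FarFromTriangleFree (c / 9) := by
    refine farFromTriangleFree F ?_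
    rw [Fintype.card_fin]
    push_cast
    calc c / 9 * ((n : ℝ) + n + n) ^ 2 = c * (n : ℝ) ^ 2 := by ring
      _ ≤ _ := hcard
  have hcl := hfar.le_card_cliqueFinset
  rw [← hδ] at hcl
  let Tri : Finset (Fin n × Fin n × Fin n) := univ.filter fun t =>
    (∃ z, (t.1, t.2.1, z) ∈ F) ∧ (∃ y, (t.1, y, t.2.2) ∈ F) ∧ (∃ x, (x, t.2.1, t.2.2) ∈ F)
  have hsub : (graph F).cliqueFinset 3 ⊆ Tri.image toTriangle := by
    intro s hs
    rw [mem_cliqueFinset_iff, is3Clique_iff] at hs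
    obtain ⟨x, y, z, hxy, hxz, hyz, rfl⟩ := hs
    obtain ⟨a, b, w, habw, hab, haw, hbw⟩ := graph_triple hxy hxz hyz
    rw [mem_image]
    refine ⟨(a, b, w), ?_, habw⟩
    simp only [Tri, mem_filter, mem_univ, true_and]
    exact ⟨Graph.in₀₁_iff.1 hab, Graph.in₀₂_iff.1 haw, Graph.in₁₂_iff.1 hbw⟩
  have hTri : δ * (3 * (n : ℝ)) ^ 3 ≤ Tri.card := by
    have h1 : (((graph F).cliqueFinset 3).card : ℝ) ≤ Tri.card := by
      exact_mod_cast (card_le_card hsub).trans card_image_le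
    refine le_trans (le_of_eq ?_) (hcl.trans h1)
    congr 1
    simp [Fintype.card_sum]
    ring
  have h1 : Tri ⊆ ((univ : Finset (Fin n × Fin n × Fin n)).filter fun t => t ∉ F ∧
      (∃ z, (t.1, t.2.1, z) ∈ F) ∧ (∃ y, (t.1, y, t.2.2) ∈ F) ∧
        (∃ x, (x, t.2.1, t.2.2) ∈ F)) ∪ F := by
    intro t ht
    simp only [Tri, mem_filter, mem_univ, true_and] at ht
    rw [mem_union]
    by_cases h : t ∈ F
    · exact Or.inr h
    · left
      rw [mem_filter]
      exact ⟨mem_univ _, h, ht⟩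
  have h2 := (card_le_card h1).trans (card_union_le _ _)
  have h3 : F.card ≤ n ^ 2 := card_le_sq F hF
  obtain ⟨X, hX⟩ : ∃ X : ℕ, X = ((univ : Finset (Fin n × Fin n × Fin n)).filter fun t => t ∉ F ∧
      (∃ z, (t.1, t.2.1, z) ∈ F) ∧ (∃ y, (t.1, y, t.2.2) ∈ F) ∧
        (∃ x, (x, t.2.1, t.2.2) ∈ F)).card := ⟨_, rfl⟩
  rw [← hX] at h2 ⊢
  have h4 : (Tri.card : ℝ) ≤ X + (n : ℝ) ^ 2 := by exact_mod_cast h2.trans (Nat.add_le_add_left h3 _)
  have h5 : (n : ℝ) ^ 2 ≤ δ * (n : ℝ) ^ 3 := by nlinarith [sq_nonneg (n : ℝ)]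
  have h6 : 0 < δ * (n : ℝ) ^ 3 := by positivity
  nlinarith

end Pool.Agent.H66.BES
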