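import Pool.Agent.H66.BES.Defs
import Pool.Agent.H66.BES.Tri

set_option autoImplicit false

namespace Pool.Agent.H66.BES

open Finset SimpleGraph TripartiteFromTriangles

lemma Conf.mono {V : Type*} [DecidableEq V] {F : Finset (Finset V)} {e d d' : ℕ} (h : Conf F e d)
    (hd : d ≤ d') : Conf F e d' := by
  obtain ⟨T, h1, h2, h3⟩ := h
  exact ⟨T, h1, h2, h3.trans (by omega)⟩

/-- one configuration gives all smaller numbers of edges -/
lemma conf_of_good {V : Type*} [DecidableEq V] {k : ℕ} {B : Finset V} {x y z : V} {W : Finset V}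
    {S : Finset (Finset V)} (h : Good k B x y z W S) {F : Finset (Finset V)} (hS : S ⊆ F) {e : ℕ}
    (he : e ≤ 3 ^ k) : Conf F e (k + 2) := by
  obtain ⟨c, h1, h2, h3, h4⟩ := h.ch1
  refine ⟨c e, ?_, h1 e he, ?_⟩
  · have h5 := h2 e (3 ^ k) he le_rfl
    rw [h3] at h5
    exact h5.trans hS
  · exact (card_le_card subset_union_left).trans (h4 e he)

theorem levels (hst : S_step) (hl : S_lin) (k : ℕ) : ∀ (e : ℕ) (c : ℝ), 0 < c →
    ∃ c' : ℝ, 0 < c' ∧ ∃ N : ℕ, ∀ n : ℕ, N ≤ n →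
      ∀ (F : Finset (Finset (Fin n))) (B : Finset (Fin n)) (G : Finset (Fin n × Fin n × Fin n))
        (W : Fin n × Fin n × Fin n → Finset (Fin n))
        (S : Fin n × Fin n × Fin n → Finset (Finset (Fin n))), Sys 0 F B G W S →
      c * (n : ℝ) ^ 2 ≤ G.card → Conf F e (k + 3) ∨
      ∃ (B' : Finset (Fin n)) (G' : Finset (Fin n × Fin n × Fin n))
        (W' : Fin n × Fin n × Fin n → Finset (Fin n))
        (S' : Fin n × Fin n × Fin n → Finset (Finset (Fin n))), Sys k F B' G' W' S' ∧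
        c' * (n : ℝ) ^ 2 ≤ G'.card := by
  induction k with
  | zero =>
    intro e c hc
    exact ⟨c, hc, 0, fun n _ F B G W S h1 h2 => Or.inr ⟨B, G, W, S, h1, h2⟩⟩
  | succ k ih =>
    intro e c hc
    obtain ⟨c1, hc1, N1, hN1⟩ := ih e c hc
    obtain ⟨c2, hc2, N2, hN2⟩ := hst k e c1 hc1
    refine ⟨c2 / ((e + (k + 1) + 2 : ℕ) : ℝ), by positivity, max N1 N2, ?_⟩
    intro n hn F B G W S hG hGc
    rcases hN1 n ((le_max_left _ _).trans hn) F B G W S hG hGc with h | ⟨B1, G1, W1, S1, h1, h2⟩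
    · exact Or.inl (h.mono (by omega))
    rcases hN2 n ((le_max_right _ _).trans hn) F B1 G1 W1 S1 h1 h2 with h | ⟨B2, G2, W2, S2, h3, h4⟩
    · exact Or.inl (h.mono (by omega))
    rcases hl (Fin n) (k + 1) e F B2 G2 W2 S2 h3 with h | ⟨G3, _, h5, h6⟩
    · exact Or.inl h
    refine Or.inr ⟨B2, G3, W2, S2, h5, ?_⟩
    have h7 : (G2.card : ℝ) ≤ ((e + (k + 1) + 2 : ℕ) : ℝ) * G3.card := by exact_mod_cast h6
    rw [div_mul_eq_mul_div, div_le_iff₀ (by positivity)]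
    linarith

theorem t_main (hst : S_step) (hl : S_lin) : S_main := by
  classical
  intro K e he c hc
  have hsys : ∀ (n : ℕ) (G : Finset (Fin n × Fin n × Fin n)), ExplicitDisjoint G →
      (∀ t ∈ G, t.1 ≠ t.2.1 ∧ t.1 ≠ t.2.2 ∧ t.2.1 ≠ t.2.2) →
      Sys 0 (G.image fun t => ({t.1, t.2.1, t.2.2} : Finset (Fin n))) ∅ G
        (fun t => {t.1, t.2.1, t.2.2}) (fun t => {{t.1, t.2.1, t.2.2}}) := by
    intro n G hG hne
    refine ⟨hG, fun t ht => ⟨?_, ?_⟩⟩
    · obtain ⟨h1, h2, h3⟩ := hne t ht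
      exact t_zero (Fin n) t.1 t.2.1 t.2.2 h1 h2 h3
    · rw [singleton_subset_iff]
      exact mem_image_of_mem _ ht
  have hpos : ∀ (c' : ℝ), 0 < c' → ∀ n : ℕ, 1 ≤ n → ∀ G : Finset (Fin n × Fin n × Fin n),
      c' * (n : ℝ) ^ 2 ≤ G.card → G.Nonempty := by
    intro c' hc' n hn G hG
    rw [← card_pos]
    have h1 : (0 : ℝ) < c' * (n : ℝ) ^ 2 := by
      have : (0 : ℝ) < n := by exact_mod_cast hn
      positivity
    exact_mod_cast h1.trans_le hG
  rcases Nat.eq_zero_or_pos K with rfl | hK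
  · refine ⟨1, fun n hn G hG hne hGc => ?_⟩
    obtain ⟨t, ht⟩ := hpos c hc n hn G hGc
    have h1 := (hsys n G hG hne).2 t ht
    exact conf_of_good h1.1 h1.2 he
  · obtain ⟨k, rfl⟩ : ∃ k, K = k + 1 := ⟨K - 1, by omega⟩
    obtain ⟨c1, hc1, N1, hN1⟩ := levels hst hl k e c hc
    obtain ⟨c2, hc2, N2, hN2⟩ := hst k e c1 hc1
    refine ⟨max (max N1 N2) 1, fun n hn G hG hne hGc => ?_⟩
    have hn1 : N1 ≤ n := (le_max_left _ _).trans ((le_max_left _ _).trans hn)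
    have hn2 : N2 ≤ n := (le_max_right _ _).trans ((le_max_left _ _).trans hn)
    have hn3 : 1 ≤ n := (le_max_right _ _).trans hn
    rcases hN1 n hn1 _ _ G _ _ (hsys n G hG hne) hGc with h | ⟨B1, G1, W1, S1, h1, h2⟩
    · exact h.mono (by omega)
    rcases hN2 n hn2 _ B1 G1 W1 S1 h1 h2 with h | ⟨B2, G2, W2, S2, h3, h4⟩
    · exact h.mono (by omega)
    obtain ⟨t, ht⟩ := hpos c2 hc2 n hn3 G2 h4
    have h5 := h3.2.2 t ht
    exact conf_of_good h5.1 h5.2 he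

end Pool.Agent.H66.BES
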