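import Pool.Agent.H66.BES.Defs
import Pool.Agent.H66.BES.Tri

set_option autoImplicit false

namespace Pool.Agent.H66.BES

open Finset SimpleGraph TripartiteFromTriangles

/-- two configurations share a mark and one further vertex outside the base -/
def Clash {V : Type} (B : Finset V) (W : V × V × V → Finset V) (t u : V × V × V) : Prop :=
  t ≠ u ∧ ∃ m, ((m = t.1 ∧ m = u.1) ∨ (m = t.2.1 ∧ m = u.2.1) ∨ (m = t.2.2 ∧ m = u.2.2)) ∧
    ∃ v, v ∈ W t ∧ v ∈ W u ∧ v ∉ B ∧ v ≠ m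

lemma Clash.symm {V : Type} {B : Finset V} {W : V × V × V → Finset V} (t u : V × V × V)
    (h : Clash B W t u) : Clash B W u t := by
  obtain ⟨h1, m, hm, v, h2, h3, h4, h5⟩ := h
  refine ⟨h1.symm, m, ?_, v, h3, h2, h4, h5⟩
  rcases hm with hm | hm | hm
  · exact Or.inl hm.symm
  · exact Or.inr (Or.inl hm.symm)
  · exact Or.inr (Or.inr hm.symm)

/-- many clashes give growth -/
theorem many_clash (hg : S_growth) (hd : S_mindeg) {V : Type} [Fintype V] [DecidableEq V] (k e : ℕ)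
    (F : Finset (Finset V)) (B : Finset V) (G : Finset (V × V × V)) (W : V × V × V → Finset V)
    (S : V × V × V → Finset (Finset V)) (hG : Sys k F B G W S) [DecidableRel (Clash B W)]
    (hP : 2 * (e + k + 2) ^ 2 * G.card < ((G ×ˢ G).filter fun p => Clash B W p.1 p.2).card) :
    Conf F e (k + 3) := by
  classical
  obtain ⟨G', hG', hne, hdeg⟩ := hd (V × V × V) (Clash B W) Clash.symm ((e + k + 2) ^ 2) G hP
  refine hg V k e F B G' W S (fun t ht => hG.2 t (hG' ht)) hne ?_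
  intro U hU t0 ht0 hWU
  have h1 : ∃ t ∈ G'.filter (fun u => Clash B W t0 u), ¬ W t ⊆ U := by
    by_contra hcon
    push Not at hcon
    have h2 : ((G'.filter fun u => Clash B W t0 u).image fun t => (t.1, t.2.1)).card =
        (G'.filter fun u => Clash B W t0 u).card := by
      refine card_image_of_injOn ?_
      rintro ⟨a, b, c⟩ h1 ⟨a', b', c'⟩ h2 h3
      simp only [Prod.mk.injEq] at h3
      obtain ⟨rfl, rfl⟩ := h3
      have h4 := hG.1.inj₂ (hG' (mem_filter.1 (mem_coe.1 h1)).1) (hG' (mem_filter.1 (mem_coe.1 h2)).1)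
      rw [h4]
    have h3 : ((G'.filter fun u => Clash B W t0 u).image fun t => (t.1, t.2.1)) ⊆ U ×ˢ U := by
      intro p hp
      obtain ⟨t, ht, rfl⟩ := mem_image.1 hp
      have h4 := hcon t ht
      have h5 := (hG.2 t (hG' (mem_filter.1 ht).1)).1
      exact mem_product.2 ⟨h4 h5.xW, h4 h5.yW⟩
    have h4 := card_le_card h3
    rw [h2, card_product] at h4
    have h5 := hdeg t0 ht0
    have h6 : U.card * U.card ≤ (e + k + 2) ^ 2 := by
      rw [sq]
      exact Nat.mul_le_mul hU hU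
    omega
  obtain ⟨t, ht, htU⟩ := h1
  obtain ⟨htG, -, m, hm, v, hv0, hvt, hvB, hvm⟩ := mem_filter.1 ht
  have h5 := (hG.2 t0 (hG' ht0)).1
  refine ⟨t, htG, htU, m, ?_, ?_, v, hWU hv0, hvt, hvB, hvm⟩
  · rcases hm with hm | hm | hm
    · exact Or.inl hm.2
    · exact Or.inr (Or.inl hm.2)
    · exact Or.inr (Or.inr hm.2)
  · rcases hm with hm | hm | hm
    · rw [hm.1]
      exact hWU h5.xW
    · rw [hm.1]
      exact hWU h5.yW
    · rw [hm.1]
      exact hWU h5.zW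

theorem t_step (hs : S_succ) (hg : S_growth) (hd : S_mindeg) : S_step := by
  classical
  intro k e c hc
  obtain ⟨c1, hc1, N1, hN1⟩ := t_tri c hc
  obtain ⟨M, hM⟩ : ∃ M : ℕ, M = (e + k + 2) ^ 2 := ⟨_, rfl⟩
  refine ⟨c1 / 2, by positivity, max (max N1 1) ⌈12 * (M : ℝ) / c1⌉₊, ?_⟩
  intro n hn F B G W S hG hGc
  have hn1 : N1 ≤ n := (le_max_left _ _).trans ((le_max_left _ _).trans hn)
  have hn2 : 1 ≤ n := (le_max_right _ _).trans ((le_max_left _ _).trans hn)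
  have hn3 : 12 * (M : ℝ) ≤ c1 * n := by
    have h1 : 12 * (M : ℝ) / c1 ≤ n :=
      (Nat.le_ceil _).trans (by exact_mod_cast (le_max_right _ _).trans hn)
    rw [div_le_iff₀ hc1] at h1
    linarith
  have hn0 : (0 : ℝ) < n := by exact_mod_cast hn2
  obtain ⟨hlin, hfam⟩ := hG
  by_cases hP : 2 * (e + k + 2) ^ 2 * G.card <
      ((G ×ˢ G).filter fun p => Clash B W p.1 p.2).card
  · exact Or.inl (many_clash hg hd k e F B G W S ⟨hlin, hfam⟩ hP)
  right
  rw [← hM] at hP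
  push Not at hP
  have hX := hN1 n hn1 G hlin hGc
  obtain ⟨X, hXdef⟩ : ∃ X : Finset (Fin n × Fin n × Fin n), X =
    (univ.filter fun t => t ∉ G ∧ (∃ z, (t.1, t.2.1, z) ∈ G) ∧ (∃ y, (t.1, y, t.2.2) ∈ G) ∧
        (∃ x, (x, t.2.1, t.2.2) ∈ G)) := ⟨_, rfl⟩
  rw [← hXdef] at hX
  have hXm : ∀ t ∈ X, t ∉ G ∧ (∃ z, (t.1, t.2.1, z) ∈ G) ∧ (∃ y, (t.1, y, t.2.2) ∈ G) ∧
        (∃ x, (x, t.2.1, t.2.2) ∈ G) := by
    intro t ht
    rw [hXdef, mem_filter] at ht
    exact ht.2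
  have hcc : ∀ t : Fin n × Fin n × Fin n, ∃ z, t ∈ X → (t.1, t.2.1, z) ∈ G := by
    intro t
    by_cases h : t ∈ X
    · obtain ⟨z, hz⟩ := (hXm t h).2.1
      exact ⟨z, fun _ => hz⟩
    · exact ⟨t.1, fun h' => absurd h' h⟩
  have hbb : ∀ t : Fin n × Fin n × Fin n, ∃ z, t ∈ X → (t.1, z, t.2.2) ∈ G := by
    intro t
    by_cases h : t ∈ X
    · obtain ⟨z, hz⟩ := (hXm t h).2.2.1
      exact ⟨z, fun _ => hz⟩
    · exact ⟨t.1, fun h' => absurd h' h⟩
  have haa : ∀ t : Fin n × Fin n × Fin n, ∃ z, t ∈ X → (z, t.2.1, t.2.2) ∈ G := by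
    intro t
    by_cases h : t ∈ X
    · obtain ⟨z, hz⟩ := (hXm t h).2.2.2
      exact ⟨z, fun _ => hz⟩
    · exact ⟨t.1, fun h' => absurd h' h⟩
  choose cc hcc using hcc
  choose bb hbb using hbb
  choose aa haa using haa
  have hbq : ∀ t ∈ X, bb t ≠ t.2.1 := by
    intro t ht h
    have h1 := hbb t ht
    rw [h] at h1
    exact (hXm t ht).1 h1
  have hcr : ∀ t ∈ X, cc t ≠ t.2.2 := by
    intro t ht h
    have h1 := hcc t ht
    rw [h] at h1
    exact (hXm t ht).1 h1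
  have hap : ∀ t ∈ X, aa t ≠ t.1 := by
    intro t ht h
    have h1 := haa t ht
    rw [h] at h1
    exact (hXm t ht).1 h1
  -- the clashing triangles
  have e1 : (X.filter fun t => Clash B W (t.1, bb t, t.2.2) (t.1, t.2.1, cc t)).card ≤
      2 * M * G.card := by
    refine le_trans ?_ hP
    refine card_le_card_of_injOn
      (fun t => (((t.1, bb t, t.2.2), (t.1, t.2.1, cc t)) :
        (Fin n × Fin n × Fin n) × (Fin n × Fin n × Fin n))) ?_ ?_
    · intro t ht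
      have ht' := mem_filter.1 (mem_coe.1 ht)
      exact mem_coe.2 (mem_filter.2 ⟨mem_product.2 ⟨hbb t ht'.1, hcc t ht'.1⟩, ht'.2⟩)
    · rintro ⟨p, q, r⟩ _ ⟨p', q', r'⟩ _ h
      simp only [Prod.mk.injEq] at h
      obtain ⟨⟨h1, _, h2⟩, _, h3, _⟩ := h
      rw [h1, h2, h3]
  have e2 : (X.filter fun t => Clash B W (t.1, t.2.1, cc t) (aa t, t.2.1, t.2.2)).card ≤
      2 * M * G.card := by
    refine le_trans ?_ hP
    refine card_le_card_of_injOn
      (fun t => (((t.1, t.2.1, cc t), (aa t, t.2.1, t.2.2)) :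
        (Fin n × Fin n × Fin n) × (Fin n × Fin n × Fin n))) ?_ ?_
    · intro t ht
      have ht' := mem_filter.1 (mem_coe.1 ht)
      exact mem_coe.2 (mem_filter.2 ⟨mem_product.2 ⟨hcc t ht'.1, haa t ht'.1⟩, ht'.2⟩)
    · rintro ⟨p, q, r⟩ _ ⟨p', q', r'⟩ _ h
      simp only [Prod.mk.injEq] at h
      obtain ⟨⟨h1, h2, _⟩, _, _, h3⟩ := h
      rw [h1, h2, h3]
  have e3 : (X.filter fun t => Clash B W (t.1, bb t, t.2.2) (aa t, t.2.1, t.2.2)).card ≤
      2 * M * G.card := by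
    refine le_trans ?_ hP
    refine card_le_card_of_injOn
      (fun t => (((t.1, bb t, t.2.2), (aa t, t.2.1, t.2.2)) :
        (Fin n × Fin n × Fin n) × (Fin n × Fin n × Fin n))) ?_ ?_
    · intro t ht
      have ht' := mem_filter.1 (mem_coe.1 ht)
      exact mem_coe.2 (mem_filter.2 ⟨mem_product.2 ⟨hbb t ht'.1, haa t ht'.1⟩, ht'.2⟩)
    · rintro ⟨p, q, r⟩ _ ⟨p', q', r'⟩ _ h
      simp only [Prod.mk.injEq] at h
      obtain ⟨⟨h1, _, h2⟩, _, h3, _⟩ := h
      rw [h1, h2, h3]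
  -- the clean triangles
  obtain ⟨Y, hY⟩ : ∃ Y : Finset (Fin n × Fin n × Fin n), Y = X.filter fun t =>
    ¬ Clash B W (t.1, bb t, t.2.2) (t.1, t.2.1, cc t) ∧
    ¬ Clash B W (t.1, t.2.1, cc t) (aa t, t.2.1, t.2.2) ∧
    ¬ Clash B W (t.1, bb t, t.2.2) (aa t, t.2.1, t.2.2) := ⟨_, rfl⟩
  have hXY : X.card ≤ Y.card + 3 * (2 * M * G.card) := by
    have h1 : X ⊆ Y ∪ ((X.filter fun t => Clash B W (t.1, bb t, t.2.2) (t.1, t.2.1, cc t)) ∪
        ((X.filter fun t => Clash B W (t.1, t.2.1, cc t) (aa t, t.2.1, t.2.2)) ∪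
        (X.filter fun t => Clash B W (t.1, bb t, t.2.2) (aa t, t.2.1, t.2.2)))) := by
      intro t ht
      rw [mem_union, mem_union, mem_union, mem_filter, mem_filter, mem_filter, hY, mem_filter]
      tauto
    have h2 := card_le_card h1
    have h3 := card_union_le Y ((X.filter fun t => Clash B W (t.1, bb t, t.2.2) (t.1, t.2.1, cc t)) ∪
        ((X.filter fun t => Clash B W (t.1, t.2.1, cc t) (aa t, t.2.1, t.2.2)) ∪
        (X.filter fun t => Clash B W (t.1, bb t, t.2.2) (aa t, t.2.1, t.2.2))))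
    have h4 := card_union_le (X.filter fun t => Clash B W (t.1, bb t, t.2.2) (t.1, t.2.1, cc t))
        ((X.filter fun t => Clash B W (t.1, t.2.1, cc t) (aa t, t.2.1, t.2.2)) ∪
        (X.filter fun t => Clash B W (t.1, bb t, t.2.2) (aa t, t.2.1, t.2.2)))
    have h5 := card_union_le (X.filter fun t => Clash B W (t.1, t.2.1, cc t) (aa t, t.2.1, t.2.2))
        (X.filter fun t => Clash B W (t.1, bb t, t.2.2) (aa t, t.2.1, t.2.2))
    omega
  have hGn : G.card ≤ n ^ 2 := card_le_sq G hlin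
  have hYc : c1 / 2 * (n : ℝ) ^ 3 ≤ Y.card := by
    have h1 : (X.card : ℝ) ≤ Y.card + 3 * (2 * M * G.card) := by exact_mod_cast hXY
    have h2 : (G.card : ℝ) ≤ (n : ℝ) ^ 2 := by exact_mod_cast hGn
    have h3 : 3 * (2 * (M : ℝ) * G.card) ≤ 6 * M * (n : ℝ) ^ 2 := by
      have : (0 : ℝ) ≤ M := by positivity
      nlinarith
    have h4 : 12 * (M : ℝ) * (n : ℝ) ^ 2 ≤ c1 * n * (n : ℝ) ^ 2 := by
      have : (0 : ℝ) ≤ (n : ℝ) ^ 2 := by positivity
      nlinarith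
    have h5 : c1 * n * (n : ℝ) ^ 2 = c1 * (n : ℝ) ^ 3 := by ring
    linarith
  have hYX : Y ⊆ X := by rw [hY]; exact filter_subset _ _
  -- the best middle
  obtain ⟨b0, hb0⟩ : ∃ b0 : Fin n, c1 / 2 * (n : ℝ) ^ 2 ≤ (Y.filter fun t => bb t = b0).card := by
    by_contra hcon
    push Not at hcon
    have h1 : Y.card = ∑ z : Fin n, (Y.filter fun t => bb t = z).card :=
      card_eq_sum_card_fiberwise fun _ _ => mem_coe.2 (mem_univ _)
    have h2 : (Y.card : ℝ) < ∑ _z : Fin n, c1 / 2 * (n : ℝ) ^ 2 := by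
      rw [h1]
      push_cast
      exact sum_lt_sum_of_nonempty ⟨⟨0, by omega⟩, mem_univ _⟩ fun z _ => hcon z
    rw [sum_const, card_univ, Fintype.card_fin, nsmul_eq_mul] at h2
    have h3 : (n : ℝ) * (c1 / 2 * (n : ℝ) ^ 2) = c1 / 2 * (n : ℝ) ^ 3 := by ring
    linarith
  obtain ⟨Z, hZ⟩ : ∃ Z : Finset (Fin n × Fin n × Fin n), Z = Y.filter fun t => bb t = b0 :=
    ⟨_, rfl⟩
  rw [← hZ] at hb0
  have hZX : ∀ t ∈ Z, t ∈ X := by
    intro t ht
    rw [hZ] at ht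
    exact hYX (mem_filter.1 ht).1
  have hZb : ∀ t ∈ Z, bb t = b0 := by
    intro t ht
    rw [hZ] at ht
    exact (mem_filter.1 ht).2
  have hZ1 : ∀ t ∈ Z, (t.1, b0, t.2.2) ∈ G := by
    intro t ht
    have := hbb t (hZX t ht)
    rwa [hZb t ht] at this
  let φ : Fin n × Fin n × Fin n → Fin n × Fin n × Fin n := fun t => (aa t, t.2.1, cc t)
  have hψ : ∀ u : Fin n × Fin n × Fin n, ∃ t, u ∈ Z.image φ → t ∈ Z ∧ φ t = u := by
    intro u
    by_cases h : u ∈ Z.image φ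
    · obtain ⟨t, ht⟩ := mem_image.1 h
      exact ⟨t, fun _ => ht⟩
    · exact ⟨u, fun h' => absurd h' h⟩
  choose ψ hψ using hψ
  have hr : ∀ t ∈ Z, ∀ u ∈ Z, aa t = aa u → t.2.1 = u.2.1 → t.2.2 = u.2.2 := by
    intro t ht u hu h1 h2
    have h3 := haa t (hZX t ht)
    have h4 := haa u (hZX u hu)
    rw [← h1, ← h2] at h4
    exact hlin.inj₂ h3 h4
  have hp : ∀ t ∈ Z, ∀ u ∈ Z, t.2.2 = u.2.2 → t.1 = u.1 := by
    intro t ht u hu h1
    have h3 := hZ1 t ht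
    have h4 := hZ1 u hu
    rw [← h1] at h4
    exact hlin.inj₀ h3 h4
  have hp' : ∀ t ∈ Z, ∀ u ∈ Z, t.1 = u.1 → t.2.2 = u.2.2 := by
    intro t ht u hu h1
    have h3 := hZ1 t ht
    have h4 := hZ1 u hu
    rw [← h1] at h4
    exact hlin.inj₂ h3 h4
  refine ⟨insert b0 B, Z.image φ,
    fun u => W ((ψ u).1, b0, (ψ u).2.2) ∪ W ((ψ u).1, (ψ u).2.1, cc (ψ u)) ∪
      W (aa (ψ u), (ψ u).2.1, (ψ u).2.2),
    fun u => S ((ψ u).1, b0, (ψ u).2.2) ∪ S ((ψ u).1, (ψ u).2.1, cc (ψ u)) ∪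
      S (aa (ψ u), (ψ u).2.1, (ψ u).2.2), ⟨?_, ?_, ?_⟩, ?_⟩
  · intro a q c c' h1 h2
    obtain ⟨t, ht, ht'⟩ := mem_image.1 h1
    obtain ⟨u, hu, hu'⟩ := mem_image.1 h2
    simp only [φ, Prod.mk.injEq] at ht' hu'
    have h3 := hr t ht u hu (ht'.1.trans hu'.1.symm) (ht'.2.1.trans hu'.2.1.symm)
    have h4 := hp t ht u hu h3
    have h5 := hcc t (hZX t ht)
    have h6 := hcc u (hZX u hu)
    rw [ht'.2.1, ht'.2.2] at h5
    rw [hu'.2.1, hu'.2.2, ← h4] at h6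
    exact hlin.inj₂ h5 h6
  · intro a a' q c h1 h2
    obtain ⟨t, ht, ht'⟩ := mem_image.1 h1
    obtain ⟨u, hu, hu'⟩ := mem_image.1 h2
    simp only [φ, Prod.mk.injEq] at ht' hu'
    have h5 := hcc t (hZX t ht)
    have h6 := hcc u (hZX u hu)
    rw [ht'.2.1, ht'.2.2] at h5
    rw [hu'.2.1, hu'.2.2] at h6
    have h4 := hlin.inj₀ h5 h6
    have h3 := hp' t ht u hu h4
    have h7 := haa t (hZX t ht)
    have h8 := haa u (hZX u hu)
    rw [ht'.2.1, ht'.1] at h7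
    rw [hu'.2.1, hu'.1, ← h3] at h8
    exact hlin.inj₀ h7 h8
  · intro u hu
    obtain ⟨htZ, htu⟩ := hψ u hu
    obtain ⟨t, htdef⟩ : ∃ t, t = ψ u := ⟨_, rfl⟩
    rw [← htdef] at htZ htu
    have htX := hZX t htZ
    have g1 := hfam _ (hZ1 t htZ)
    have g2 := hfam _ (hcc t htX)
    have g3 := hfam _ (haa t htX)
    have htY : t ∈ Y := by
      rw [hZ] at htZ
      exact (mem_filter.1 htZ).1
    rw [hY, mem_filter] at htY
    obtain ⟨-, n1, n2, n3⟩ := htY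
    rw [hZb t htZ] at n1 n3
    have hbq' := hbq t htX
    rw [hZb t htZ] at hbq'
    have hcr' := hcr t htX
    have hap' := hap t htX
    simp only [φ] at htu
    have hu1 : u.1 = aa t := by rw [← htu]
    have hu2 : u.2.1 = t.2.1 := by rw [← htu]
    have hu3 : u.2.2 = cc t := by rw [← htu]
    refine ⟨?_, ?_⟩
    · show Good (k + 1) (insert b0 B) u.1 u.2.1 u.2.2
        (W ((ψ u).1, b0, (ψ u).2.2) ∪ W ((ψ u).1, (ψ u).2.1, cc (ψ u)) ∪
          W (aa (ψ u), (ψ u).2.1, (ψ u).2.2))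
        (S ((ψ u).1, b0, (ψ u).2.2) ∪ S ((ψ u).1, (ψ u).2.1, cc (ψ u)) ∪
          S (aa (ψ u), (ψ u).2.1, (ψ u).2.2))
      rw [← htdef, hu1, hu2, hu3]
      refine hs (Fin n) k B t.1 b0 t.2.2 t.2.1 (cc t) (aa t) _ _ _ _ _ _ g1.1 g2.1 g3.1 ?_ ?_ ?_
      · intro v hv
        rw [mem_inter] at hv
        by_contra hcon
        rw [mem_insert, not_or] at hcon
        refine n1 ⟨?_, t.1, Or.inl ⟨rfl, rfl⟩, v, hv.1, hv.2, hcon.2, hcon.1⟩
        intro h
        simp only [Prod.mk.injEq] at h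
        exact hbq' h.2.1
      · intro v hv
        rw [mem_inter] at hv
        by_contra hcon
        rw [mem_insert, not_or] at hcon
        refine n2 ⟨?_, t.2.1, Or.inr (Or.inl ⟨rfl, rfl⟩), v, hv.1, hv.2, hcon.2, hcon.1⟩
        intro h
        simp only [Prod.mk.injEq] at h
        exact hap' h.1.symm
      · intro v hv
        rw [mem_inter] at hv
        by_contra hcon
        rw [mem_insert, not_or] at hcon
        refine n3 ⟨?_, t.2.2, Or.inr (Or.inr ⟨rfl, rfl⟩), v, hv.1, hv.2, hcon.2, hcon.1⟩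
        intro h
        simp only [Prod.mk.injEq] at h
        exact hbq' h.2.1
    · show S ((ψ u).1, b0, (ψ u).2.2) ∪ S ((ψ u).1, (ψ u).2.1, cc (ψ u)) ∪
          S (aa (ψ u), (ψ u).2.1, (ψ u).2.2) ⊆ F
      rw [← htdef]
      exact union_subset (union_subset g1.2 g2.2) g3.2
  · have h1 : (Z.image φ).card = Z.card := by
      refine card_image_of_injOn ?_
      intro t ht u hu h
      simp only [φ, Prod.mk.injEq] at h
      have h3 := hr t ht u hu h.1 h.2.1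
      have h4 := hp t ht u hu h3
      exact Prod.ext h4 (Prod.ext h.2.1 h3)
    rw [h1]
    exact hb0

end Pool.Agent.H66.BES
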