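import Pool.Agent.H66.BES.Defs

set_option autoImplicit false

/-!
# Tripling of configurations (`S_succ`, by helper385)
-/

namespace Pool.Agent.H66.BES

open Finset

namespace SUCC

section
variable {V : Type*} [DecidableEq V]

/-- concatenation of three chains -/
theorem chain3 {k : ℕ} {B WA W1 : Finset V} {x q s b s' : V} {SA S1 SC : Finset (Finset V)}
    (hB : B.card = k) (hA : Chain k B x q SA) (h1 : Chain k B s b S1) (hC : Chain k B s' q SC)
    (subA : ∀ f ∈ SA, f ⊆ WA) (sub1 : ∀ f ∈ S1, f ⊆ W1) (BWA : B ⊆ WA) (BW1 : B ⊆ W1)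
    (xA : x ∈ WA) (qA : q ∈ WA) (sA : s ∈ WA) (s1 : s ∈ W1) (s'1 : s' ∈ W1) (b1 : b ∈ W1)
    (sB : s ∉ B) (s'B : s' ∉ B) (qB : q ∉ B) (s'q : s' ≠ q)
    (cWA : WA.card = 3 ^ k + k + 2) (cW1 : W1.card = 3 ^ k + k + 2)
    (dA1 : Disjoint SA S1) (dAC : Disjoint SA SC) (d1C : Disjoint S1 SC) :
    Chain (k + 1) (insert b B) x q (SA ∪ S1 ∪ SC) := by
  obtain ⟨cA, cardA, monoA, topA, bdA⟩ := hA
  obtain ⟨c1, card1, mono1, top1, bd1⟩ := h1
  obtain ⟨cC, cardC, monoC, topC, bdC⟩ := hC
  obtain ⟨M, hM⟩ : ∃ M, M = 3 ^ k := ⟨_, rfl⟩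
  have hM1 : 1 ≤ M := by rw [hM]; exact Nat.one_le_pow _ _ (by norm_num)
  have hM3 : 3 ^ (k + 1) = 3 * M := by rw [hM, pow_succ]; ring
  rw [← hM] at cardA monoA topA bdA card1 mono1 top1 bd1 cardC monoC topC bdC cWA cW1
  have cSA : SA.card = M := by rw [← topA]; exact cardA M le_rfl
  have cS1 : S1.card = M := by rw [← top1]; exact card1 M le_rfl
  have leA : ∀ i ≤ M, cA i ⊆ SA := fun i hi => by rw [← topA]; exact monoA i M hi le_rfl
  have le1 : ∀ i ≤ M, c1 i ⊆ S1 := fun i hi => by rw [← top1]; exact mono1 i M hi le_rfl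
  have leC : ∀ i ≤ M, cC i ⊆ SC := fun i hi => by rw [← topC]; exact monoC i M hi le_rfl
  have biA : ∀ S ⊆ SA, S.biUnion id ⊆ WA := fun S hS v hv => by
    rw [mem_biUnion] at hv
    obtain ⟨f, hf, hv⟩ := hv
    exact subA f (hS hf) hv
  have bi1 : ∀ S ⊆ S1, S.biUnion id ⊆ W1 := fun S hS v hv => by
    rw [mem_biUnion] at hv
    obtain ⟨f, hf, hv⟩ := hv
    exact sub1 f (hS hf) hv
  obtain ⟨c, hc⟩ : ∃ c : ℕ → Finset (Finset V), ∀ i, c i = if i ≤ M then cA i else
    if i ≤ 2 * M then SA ∪ c1 (i - M) else SA ∪ S1 ∪ cC (i - 2 * M) := ⟨_, fun _ => rfl⟩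
  have hcA : ∀ i, i ≤ M → c i = cA i := fun i hi => by rw [hc, if_pos hi]
  have hc1 : ∀ i, ¬ i ≤ M → i ≤ 2 * M → c i = SA ∪ c1 (i - M) := fun i hi hi' => by
    rw [hc, if_neg hi, if_pos hi']
  have hcC : ∀ i, ¬ i ≤ M → ¬ i ≤ 2 * M → c i = SA ∪ S1 ∪ cC (i - 2 * M) := fun i hi hi' => by
    rw [hc, if_neg hi, if_neg hi']
  refine ⟨c, ?_, ?_, ?_, ?_⟩
  · intro i hi
    rw [hM3] at hi
    by_cases h : i ≤ M
    · rw [hcA i h]; exact cardA i h
    by_cases h' : i ≤ 2 * M
    · rw [hc1 i h h', card_union_of_disjoint (dA1.mono_right (le1 _ (by omega))), cSA,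
        card1 _ (by omega)]
      omega
    · have hd : Disjoint (SA ∪ S1) (cC (i - 2 * M)) :=
        disjoint_union_left.2 ⟨dAC.mono_right (leC _ (by omega)),
          d1C.mono_right (leC _ (by omega))⟩
      rw [hcC i h h', card_union_of_disjoint hd, card_union_of_disjoint dA1, cSA, cS1,
        cardC _ (by omega)]
      omega
  · intro i j hij hj
    rw [hM3] at hj
    by_cases hi1 : i ≤ M
    · rw [hcA i hi1]
      by_cases hj1 : j ≤ M
      · rw [hcA j hj1]; exact monoA i j hij hj1
      by_cases hj2 : j ≤ 2 * M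
      · rw [hc1 j hj1 hj2]; exact (leA i hi1).trans subset_union_left
      · rw [hcC j hj1 hj2]
        exact (leA i hi1).trans (subset_union_left.trans subset_union_left)
    have hj1 : ¬ j ≤ M := by omega
    by_cases hi2 : i ≤ 2 * M
    · rw [hc1 i hi1 hi2]
      by_cases hj2 : j ≤ 2 * M
      · rw [hc1 j hj1 hj2]
        exact union_subset_union_right (mono1 _ _ (by omega) (by omega))
      · rw [hcC j hj1 hj2]
        exact (union_subset_union_right (le1 _ (by omega))).trans subset_union_left
    have hj2 : ¬ j ≤ 2 * M := by omega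
    rw [hcC i hi1 hi2, hcC j hj1 hj2]
    exact union_subset_union_right (monoC _ _ (by omega) (by omega))
  · rw [hM3, hcC _ (by omega) (by omega), show 3 * M - 2 * M = M by omega, topC]
  · intro i hi
    rw [hM3] at hi
    by_cases h : i ≤ M
    · rw [hcA i h]
      have e : (cA i).biUnion id ∪ (insert b B ∪ {x, q}) =
          insert b ((cA i).biUnion id ∪ (B ∪ {x, q})) := by
        rw [insert_union, union_insert]
      rw [e]
      have h2 := card_insert_le b ((cA i).biUnion id ∪ (B ∪ {x, q}))
      have h3 := bdA i h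
      omega
    by_cases h' : i ≤ 2 * M
    · obtain ⟨j, hj⟩ : ∃ j, j = i - M := ⟨_, rfl⟩
      rw [hc1 i h h', ← hj]
      have hjM : j ≤ M := by omega
      obtain ⟨U, hU⟩ : ∃ U, U = (c1 j).biUnion id ∪ (B ∪ {s, b}) := ⟨_, rfl⟩
      have h2 := bd1 j hjM
      rw [← hU] at h2
      have h3 : (SA ∪ c1 j).biUnion id ∪ (insert b B ∪ {x, q}) ⊆ WA ∪ U := by
        intro v hv
        simp only [mem_union, mem_insert, mem_singleton, union_biUnion] at hv
        rw [mem_union, hU]
        simp only [mem_union, mem_insert, mem_singleton]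
        rcases hv with (hv | hv) | (hv | hv) | (hv | hv)
        · exact Or.inl (biA SA subset_rfl hv)
        · exact Or.inr (Or.inl hv)
        · exact Or.inr (Or.inr (Or.inr (Or.inr hv)))
        · exact Or.inl (BWA hv)
        · exact Or.inl (hv ▸ xA)
        · exact Or.inl (hv ▸ qA)
      have h4 : insert s B ⊆ WA ∩ U := by
        intro v hv
        rw [mem_inter, hU]
        simp only [mem_union, mem_insert, mem_singleton] at hv ⊢
        rcases hv with hv | hv
        · exact ⟨hv ▸ sA, Or.inr (Or.inr (Or.inl hv))⟩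
        · exact ⟨BWA hv, Or.inr (Or.inl hv)⟩
      have h5 := card_le_card h3
      have h6 := card_le_card h4
      rw [card_insert_of_notMem sB, hB] at h6
      have h7 := card_union_add_card_inter WA U
      omega
    · obtain ⟨j, hj⟩ : ∃ j, j = i - 2 * M := ⟨_, rfl⟩
      rw [hcC i h h', ← hj]
      have hjM : j ≤ M := by omega
      obtain ⟨U, hU⟩ : ∃ U, U = (cC j).biUnion id ∪ (B ∪ {s', q}) := ⟨_, rfl⟩
      have h2 := bdC j hjM
      rw [← hU] at h2
      have h3 : (SA ∪ S1 ∪ cC j).biUnion id ∪ (insert b B ∪ {x, q}) ⊆ WA ∪ W1 ∪ U := by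
        intro v hv
        simp only [mem_union, mem_insert, mem_singleton, union_biUnion] at hv
        rw [mem_union, mem_union, hU]
        simp only [mem_union, mem_insert, mem_singleton]
        rcases hv with ((hv | hv) | hv) | (hv | hv) | (hv | hv)
        · exact Or.inl (Or.inl (biA SA subset_rfl hv))
        · exact Or.inl (Or.inr (bi1 S1 subset_rfl hv))
        · exact Or.inr (Or.inl hv)
        · exact Or.inl (Or.inr (hv ▸ b1))
        · exact Or.inl (Or.inl (BWA hv))
        · exact Or.inl (Or.inl (hv ▸ xA))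
        · exact Or.inl (Or.inl (hv ▸ qA))
      have h4 : insert s' (insert q B) ⊆ (WA ∪ W1) ∩ U := by
        intro v hv
        rw [mem_inter, mem_union, hU]
        simp only [mem_union, mem_insert, mem_singleton] at hv ⊢
        rcases hv with hv | hv | hv
        · exact ⟨Or.inr (hv ▸ s'1), Or.inr (Or.inr (Or.inl hv))⟩
        · exact ⟨Or.inl (hv ▸ qA), Or.inr (Or.inr (Or.inr hv))⟩
        · exact ⟨Or.inl (BWA hv), Or.inr (Or.inl hv)⟩
      have h4' : insert s B ⊆ WA ∩ W1 := by
        intro v hv
        rw [mem_inter]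
        rcases mem_insert.1 hv with hv | hv
        · exact ⟨hv ▸ sA, hv ▸ s1⟩
        · exact ⟨BWA hv, BW1 hv⟩
      have h5 := card_le_card h3
      have h6 := card_le_card h4
      have h6' := card_le_card h4'
      rw [card_insert_of_notMem sB, hB] at h6'
      rw [card_insert_of_notMem (by rw [mem_insert, not_or]; exact ⟨s'q, s'B⟩),
        card_insert_of_notMem qB, hB] at h6
      have h7 := card_union_add_card_inter (WA ∪ W1) U
      have h7' := card_union_add_card_inter WA W1
      omega

/-- the edge sets are disjoint -/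
theorem disj {k : ℕ} {B W W' : Finset V} {x y z m : V} {S S' : Finset (Finset V)}
    (G : Good k B x y z W S) (hm : m ∈ W) (hmB : m ∉ B) (h : W ∩ W' ⊆ insert m B)
    (hs : ∀ f ∈ S', f ⊆ W') : Disjoint S S' := by
  rw [disjoint_left]
  intro f hf hf'
  have h1 : f ⊆ insert m B := (subset_inter (G.sub f hf) (hs f hf')).trans h
  have h2 := G.r1 (insert m B) (insert_subset hm G.BW) {f} (singleton_subset_iff.2 hf)
    (subset_insert _ _) (fun g hg => by rw [mem_singleton.1 hg]; exact h1) m (mem_insert_self _ _)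
    hmB
  rw [card_insert_of_notMem hmB, G.cB, card_singleton] at h2
  omega

end

end SUCC

open SUCC

theorem t_succ : S_succ := by
  intro V _ k B p b r q c a W1 W2 W3 S1 S2 S3 G1 G2 G3 h12 h23 h13
  -- distinctness
  have hW : ∀ {A A' B' : Finset V} {m v : V}, A ∩ A' ⊆ insert m B' → v ∈ A → v ∈ A' →
      v = m ∨ v ∈ B' := fun h h1 h2 => mem_insert.1 (h (mem_inter.2 ⟨h1, h2⟩))
  have hab : a ≠ b := by
    intro h
    rcases hW h13 (h ▸ G1.yW) G3.xW with h1 | h1
    · exact G1.yz (h ▸ h1)
    · exact G3.xB h1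
  have hqb : q ≠ b := by
    intro h
    rcases hW h12 (h ▸ G1.yW) G2.yW with h1 | h1
    · exact G1.xy (h ▸ h1.symm)
    · exact G2.yB h1
  have hcb : c ≠ b := by
    intro h
    rcases hW h12 (h ▸ G1.yW) G2.zW with h1 | h1
    · exact G1.xy (h ▸ h1.symm)
    · exact G2.zB h1
  have hac : a ≠ c := by
    intro h
    rcases hW h23 (h ▸ G2.zW) G3.xW with h1 | h1
    · exact G3.xy h1
    · exact G3.xB h1
  -- disjointness
  have d12 : Disjoint S1 S2 := disj G1 G1.xW G1.xB h12 G2.sub
  have d13 : Disjoint S1 S3 := disj G1 G1.zW G1.zB h13 G3.sub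
  have d23 : Disjoint S2 S3 := disj G2 G2.yW G2.yB h23 G3.sub
  have hd : Disjoint (S1 ∪ S2) S3 := disjoint_union_left.2 ⟨d13, d23⟩
  -- intersections
  have i12 : W1 ∩ W2 = insert p B := by
    refine subset_antisymm h12 (insert_subset (mem_inter.2 ⟨G1.xW, G2.xW⟩) ?_)
    exact subset_inter G1.BW G2.BW
  have i123 : (W1 ∪ W2) ∩ W3 = insert q (insert r B) := by
    apply subset_antisymm
    · intro v hv
      rw [mem_inter, mem_union] at hv
      rw [mem_insert, mem_insert]
      rcases hv with ⟨hv | hv, hv'⟩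
      · rcases hW h13 hv hv' with h | h
        · exact Or.inr (Or.inl h)
        · exact Or.inr (Or.inr h)
      · rcases hW h23 hv hv' with h | h
        · exact Or.inl h
        · exact Or.inr (Or.inr h)
    · refine insert_subset (mem_inter.2 ⟨mem_union_right _ G2.yW, G3.yW⟩)
        (insert_subset (mem_inter.2 ⟨mem_union_left _ G1.zW, G3.zW⟩) ?_)
      exact subset_inter (G1.BW.trans subset_union_left) G3.BW
  -- the lower bounds
  have main : ∀ U ⊆ W1 ∪ W2 ∪ W3, ∀ T ⊆ S1 ∪ S2 ∪ S3, insert b B ⊆ U → (∀ f ∈ T, f ⊆ U) →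
      T.card + (k + 1) ≤ U.card ∧
      (∀ v ∈ U, v ∉ insert b B → T.card + (k + 1) + 1 ≤ U.card) ∧
      (∀ m ∈ U, (m = a ∨ m = q ∨ m = c) → ∀ v ∈ U, v ∉ insert b B → v ≠ m →
        T.card + (k + 1) + 2 ≤ U.card) := by
    intro U hU T hT hBU hTU
    have hbU : b ∈ U := hBU (mem_insert_self _ _)
    have hBU' : B ⊆ U := (subset_insert _ _).trans hBU
    -- the parts
    have part : ∀ (W : Finset V) (S : Finset (Finset V)), (∀ f ∈ S, f ⊆ W) →
        ∀ f ∈ T ∩ S, f ⊆ U ∩ W := fun W S h f hf =>
      subset_inter (hTU f (mem_inter.1 hf).1) (h f (mem_inter.1 hf).2)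
    have A0 := G1.r1 (U ∩ W1) inter_subset_right (T ∩ S1) inter_subset_right
      (subset_inter hBU' G1.BW) (part W1 S1 G1.sub) b (mem_inter.2 ⟨hbU, G1.yW⟩) G1.yB
    have A1 : ∀ v ∈ U, v ∈ W1 → v ∉ B → v ≠ b → (T ∩ S1).card + k + 2 ≤ (U ∩ W1).card :=
      fun v hv hv1 hvB hvb => G1.r2 (U ∩ W1) inter_subset_right (T ∩ S1) inter_subset_right
        (subset_inter hBU' G1.BW) (part W1 S1 G1.sub) b (mem_inter.2 ⟨hbU, G1.yW⟩)
        (Or.inr (Or.inl rfl)) v (mem_inter.2 ⟨hv, hv1⟩) hvB hvb
    have B0 := G2.r0 (U ∩ W2) inter_subset_right (T ∩ S2) inter_subset_right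
      (subset_inter hBU' G2.BW) (part W2 S2 G2.sub)
    have B1 : ∀ v ∈ U, v ∈ W2 → v ∉ B → (T ∩ S2).card + k + 1 ≤ (U ∩ W2).card :=
      fun v hv hv1 hvB => G2.r1 (U ∩ W2) inter_subset_right (T ∩ S2) inter_subset_right
        (subset_inter hBU' G2.BW) (part W2 S2 G2.sub) v (mem_inter.2 ⟨hv, hv1⟩) hvB
    have B2 : ∀ m ∈ U, m ∈ W2 → (m = p ∨ m = q ∨ m = c) → ∀ v ∈ U, v ∈ W2 → v ∉ B → v ≠ m →
        (T ∩ S2).card + k + 2 ≤ (U ∩ W2).card :=
      fun m hm hm2 hmm v hv hv1 hvB hvm => G2.r2 (U ∩ W2) inter_subset_right (T ∩ S2)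
        inter_subset_right (subset_inter hBU' G2.BW) (part W2 S2 G2.sub) m
        (mem_inter.2 ⟨hm, hm2⟩) hmm v (mem_inter.2 ⟨hv, hv1⟩) hvB hvm
    have C0 := G3.r0 (U ∩ W3) inter_subset_right (T ∩ S3) inter_subset_right
      (subset_inter hBU' G3.BW) (part W3 S3 G3.sub)
    have C1 : ∀ v ∈ U, v ∈ W3 → v ∉ B → (T ∩ S3).card + k + 1 ≤ (U ∩ W3).card :=
      fun v hv hv1 hvB => G3.r1 (U ∩ W3) inter_subset_right (T ∩ S3) inter_subset_right
        (subset_inter hBU' G3.BW) (part W3 S3 G3.sub) v (mem_inter.2 ⟨hv, hv1⟩) hvB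
    have C2 : ∀ m ∈ U, m ∈ W3 → (m = a ∨ m = q ∨ m = r) → ∀ v ∈ U, v ∈ W3 → v ∉ B → v ≠ m →
        (T ∩ S3).card + k + 2 ≤ (U ∩ W3).card :=
      fun m hm hm2 hmm v hv hv1 hvB hvm => G3.r2 (U ∩ W3) inter_subset_right (T ∩ S3)
        inter_subset_right (subset_inter hBU' G3.BW) (part W3 S3 G3.sub) m
        (mem_inter.2 ⟨hm, hm2⟩) hmm v (mem_inter.2 ⟨hv, hv1⟩) hvB hvm
    -- the number of edges
    have hTc : T.card ≤ (T ∩ S1).card + (T ∩ S2).card + (T ∩ S3).card := by
      have e : T = (T ∩ S1 ∪ T ∩ S2) ∪ T ∩ S3 := by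
        rw [← inter_union_distrib_left, ← inter_union_distrib_left]
        exact (inter_eq_left.2 hT).symm
      calc T.card = ((T ∩ S1 ∪ T ∩ S2) ∪ T ∩ S3).card := congrArg card e
        _ ≤ (T ∩ S1 ∪ T ∩ S2).card + (T ∩ S3).card := card_union_le _ _
        _ ≤ _ := by
          have := card_union_le (T ∩ S1) (T ∩ S2)
          omega
    -- the number of vertices
    have hUe : U = (U ∩ W1 ∪ U ∩ W2) ∪ U ∩ W3 := by
      rw [← inter_union_distrib_left, ← inter_union_distrib_left]
      exact (inter_eq_left.2 hU).symm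
    have u1 := card_union_add_card_inter (U ∩ W1) (U ∩ W2)
    have u2 := card_union_add_card_inter (U ∩ W1 ∪ U ∩ W2) (U ∩ W3)
    rw [← hUe] at u2
    have v1 : ((U ∩ W1) ∩ (U ∩ W2)).card ≤ k + (if p ∈ U then 1 else 0) := by
      have e : (U ∩ W1) ∩ (U ∩ W2) ⊆ U ∩ insert p B := by
        rw [← i12]
        intro v hv
        simp only [mem_inter] at hv ⊢
        tauto
      refine (card_le_card e).trans ?_
      split_ifs with h
      · exact (card_le_card inter_subset_right).trans (by
          rw [card_insert_of_notMem G1.xB, G1.cB])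
      · rw [inter_insert_of_notMem h]
        exact (card_le_card inter_subset_right).trans (by rw [G1.cB]; omega)
    have v2 : ((U ∩ W1 ∪ U ∩ W2) ∩ (U ∩ W3)).card ≤
        k + (if q ∈ U then 1 else 0) + (if r ∈ U then 1 else 0) := by
      have e : (U ∩ W1 ∪ U ∩ W2) ∩ (U ∩ W3) ⊆ U ∩ insert q (insert r B) := by
        rw [← i123]
        intro v hv
        simp only [mem_inter, mem_union] at hv ⊢
        tauto
      refine (card_le_card e).trans ?_
      have f1 : (U ∩ insert r B).card ≤ k + (if r ∈ U then 1 else 0) := by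
        split_ifs with h
        · exact (card_le_card inter_subset_right).trans (by
            rw [card_insert_of_notMem G1.zB, G1.cB])
        · rw [inter_insert_of_notMem h]
          exact (card_le_card inter_subset_right).trans (by rw [G1.cB]; omega)
      by_cases h : q ∈ U
      · rw [inter_insert_of_mem h, if_pos h]
        have := card_insert_le q (U ∩ insert r B)
        omega
      · rw [inter_insert_of_notMem h, if_neg h]
        omega
    have D : (U ∩ W1).card + (U ∩ W2).card + (U ∩ W3).card ≤ U.card +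
        (k + (if p ∈ U then 1 else 0)) +
        (k + (if q ∈ U then 1 else 0) + (if r ∈ U then 1 else 0)) := by
      calc (U ∩ W1).card + (U ∩ W2).card + (U ∩ W3).card
          = (U ∩ W1 ∪ U ∩ W2).card + (U ∩ W3).card + ((U ∩ W1) ∩ (U ∩ W2)).card := by
            rw [← u1]; ring
        _ = U.card + ((U ∩ W1) ∩ (U ∩ W2)).card +
            ((U ∩ W1 ∪ U ∩ W2) ∩ (U ∩ W3)).card := by rw [← u2]; ring
        _ ≤ _ := Nat.add_le_add (Nat.add_le_add_left v1 _) v2
    clear u1 u2 v1 v2 hUe part
    have hcov : ∀ v ∈ U, v ∈ W1 ∨ v ∈ W2 ∨ v ∈ W3 := by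
      intro v hv
      have := hU hv
      simp only [mem_union] at this
      tauto
    clear hU hT hTU i12 i123 hd d12 d13 d23
    generalize (T ∩ S1).card = t1 at *
    generalize (T ∩ S2).card = t2 at *
    generalize (T ∩ S3).card = t3 at *
    generalize (U ∩ W1).card = u1 at *
    generalize (U ∩ W2).card = u2 at *
    generalize (U ∩ W3).card = u3 at *
    generalize T.card = t at *
    generalize U.card = u at *
    -- special cases
    have P1 : p ∈ U → t1 + k + 2 ≤ u1 :=
      fun h => A1 p h G1.xW G1.xB G1.xy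
    have R1 : r ∈ U → t1 + k + 2 ≤ u1 :=
      fun h => A1 r h G1.zW G1.zB G1.yz.symm
    have P2 : p ∈ U → t2 + k + 1 ≤ u2 := fun h => B1 p h G2.xW G2.xB
    have Q2 : q ∈ U → t2 + k + 1 ≤ u2 := fun h => B1 q h G2.yW G2.yB
    have Q3 : q ∈ U → t3 + k + 1 ≤ u3 := fun h => C1 q h G3.yW G3.yB
    have R3 : r ∈ U → t3 + k + 1 ≤ u3 := fun h => C1 r h G3.zW G3.zB
    have PQ : p ∈ U → q ∈ U → t2 + k + 2 ≤ u2 := fun h h' =>
      B2 p h G2.xW (Or.inl rfl) q h' G2.yW G2.yB G2.xy.symm
    have QR : q ∈ U → r ∈ U → t3 + k + 2 ≤ u3 := fun h h' =>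
      C2 q h G3.yW (Or.inr (Or.inl rfl)) r h' G3.zW G3.zB G3.yz.symm
    -- the mark `q` and another vertex
    have mq : q ∈ U → ∀ v ∈ U, v ∉ insert b B → v ≠ q → t + (k + 1) + 2 ≤ u := by
      intro hq v hv hvB hvq
      rw [mem_insert, not_or] at hvB
      have hvW := hcov v hv
      have X1 := Q2 hq
      have X2 := Q3 hq
      rw [if_pos hq] at D
      by_cases hp : p ∈ U
      · have X3 := P1 hp
        have X4 := PQ hp hq
        rw [if_pos hp] at D
        by_cases hr : r ∈ U
        · have X5 := QR hq hr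
          rw [if_pos hr] at D
          omega
        · rw [if_neg hr] at D
          omega
      · rw [if_neg hp] at D
        by_cases hr : r ∈ U
        · have X5 := QR hq hr
          have X6 := R1 hr
          rw [if_pos hr] at D
          omega
        · rw [if_neg hr] at D
          rcases hvW with h | h | h
          · have X7 := A1 v hv h hvB.2 hvB.1
            omega
          · have X7 := B2 q hq G2.yW (Or.inr (Or.inl rfl)) v hv h hvB.2 hvq
            omega
          · have X7 := C2 q hq G3.yW (Or.inr (Or.inl rfl)) v hv h hvB.2 hvq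
            omega
    refine ⟨?_, ?_, ?_⟩
    · by_cases hp : p ∈ U
      · have X1 := P1 hp
        have X2 := P2 hp
        rw [if_pos hp] at D
        by_cases hq : q ∈ U
        · have X3 := PQ hp hq
          have X4 := Q3 hq
          rw [if_pos hq] at D
          by_cases hr : r ∈ U
          · have X5 := QR hq hr
            rw [if_pos hr] at D
            omega
          · rw [if_neg hr] at D
            omega
        · rw [if_neg hq] at D
          by_cases hr : r ∈ U
          · have X5 := R3 hr
            rw [if_pos hr] at D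
            omega
          · rw [if_neg hr] at D
            omega
      · rw [if_neg hp] at D
        by_cases hq : q ∈ U
        · have X3 := Q2 hq
          have X4 := Q3 hq
          rw [if_pos hq] at D
          by_cases hr : r ∈ U
          · have X5 := QR hq hr
            have X6 := R1 hr
            rw [if_pos hr] at D
            omega
          · rw [if_neg hr] at D
            omega
        · rw [if_neg hq] at D
          by_cases hr : r ∈ U
          · have X5 := R3 hr
            have X6 := R1 hr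
            rw [if_pos hr] at D
            omega
          · rw [if_neg hr] at D
            omega
    · intro v hv hvB
      rw [mem_insert, not_or] at hvB
      have hvW := hcov v hv
      by_cases hp : p ∈ U
      · have X1 := P1 hp
        have X2 := P2 hp
        rw [if_pos hp] at D
        by_cases hq : q ∈ U
        · have X3 := PQ hp hq
          have X4 := Q3 hq
          rw [if_pos hq] at D
          by_cases hr : r ∈ U
          · have X5 := QR hq hr
            rw [if_pos hr] at D
            omega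
          · rw [if_neg hr] at D
            omega
        · rw [if_neg hq] at D
          by_cases hr : r ∈ U
          · have X5 := R3 hr
            rw [if_pos hr] at D
            omega
          · rw [if_neg hr] at D
            omega
      · rw [if_neg hp] at D
        by_cases hq : q ∈ U
        · have X3 := Q2 hq
          have X4 := Q3 hq
          rw [if_pos hq] at D
          by_cases hr : r ∈ U
          · have X5 := QR hq hr
            have X6 := R1 hr
            rw [if_pos hr] at D
            omega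
          · rw [if_neg hr] at D
            omega
        · rw [if_neg hq] at D
          by_cases hr : r ∈ U
          · have X5 := R3 hr
            have X6 := R1 hr
            rw [if_pos hr] at D
            omega
          · rw [if_neg hr] at D
            rcases hvW with h | h | h
            · have X7 := A1 v hv h hvB.2 hvB.1
              omega
            · have X7 := B1 v hv h hvB.2
              omega
            · have X7 := C1 v hv h hvB.2
              omega
    · intro m hm hmm v hv hvB' hvm
      have hvB := hvB'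
      rw [mem_insert, not_or] at hvB
      have hvW := hcov v hv
      rcases hmm with rfl | rfl | rfl
      · -- the mark `a`
        have Y := C1 m hm G3.xW G3.xB
        by_cases hq : q ∈ U
        · exact mq hq m hm (by rw [mem_insert, not_or]; exact ⟨hab, G3.xB⟩) G3.xy
        rw [if_neg hq] at D
        by_cases hr : r ∈ U
        · have X1 := C2 m hm G3.xW (Or.inl rfl) r hr G3.zW G3.zB G3.xz.symm
          have X2 := R1 hr
          rw [if_pos hr] at D
          by_cases hp : p ∈ U
          · have X3 := P2 hp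
            rw [if_pos hp] at D
            omega
          · rw [if_neg hp] at D
            omega
        · rw [if_neg hr] at D
          by_cases hp : p ∈ U
          · have X3 := P2 hp
            have X4 := P1 hp
            rw [if_pos hp] at D
            omega
          · rw [if_neg hp] at D
            rcases hvW with h | h | h
            · have X7 := A1 v hv h hvB.2 hvB.1
              omega
            · have X7 := B1 v hv h hvB.2
              omega
            · have X7 := C2 m hm G3.xW (Or.inl rfl) v hv h hvB.2 hvm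
              omega
      · exact mq hm v hv hvB' hvm
      · -- the mark `c`
        have Y := B1 m hm G2.zW G2.zB
        by_cases hq : q ∈ U
        · exact mq hq m hm (by rw [mem_insert, not_or]; exact ⟨hcb, G2.zB⟩) G2.yz.symm
        rw [if_neg hq] at D
        by_cases hp : p ∈ U
        · have X1 := B2 m hm G2.zW (Or.inr (Or.inr rfl)) p hp G2.xW G2.xB G2.xz
          have X2 := P1 hp
          rw [if_pos hp] at D
          by_cases hr : r ∈ U
          · have X3 := R3 hr
            rw [if_pos hr] at D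
            omega
          · rw [if_neg hr] at D
            omega
        · rw [if_neg hp] at D
          by_cases hr : r ∈ U
          · have X3 := R3 hr
            have X4 := R1 hr
            rw [if_pos hr] at D
            omega
          · rw [if_neg hr] at D
            rcases hvW with h | h | h
            · have X7 := A1 v hv h hvB.2 hvB.1
              omega
            · have X7 := B2 m hm G2.zW (Or.inr (Or.inr rfl)) v hv h hvB.2 hvm
              omega
            · have X7 := C1 v hv h hvB.2
              omega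
  refine ⟨?_, ?_, ?_, ?_, ?_, ?_, ?_, ?_, G3.xy, hac, G2.yz, ?_, ?_, ?_, ?_, ?_, ?_, ?_, ?_⟩
  · rw [card_insert_of_notMem G1.yB, G1.cB]
  · exact (insert_subset G1.yW G1.BW).trans (subset_union_left.trans subset_union_left)
  · exact mem_union_right _ G3.xW
  · exact mem_union_right _ G3.yW
  · exact mem_union_left _ (mem_union_right _ G2.zW)
  · rw [mem_insert, not_or]; exact ⟨hab, G3.xB⟩
  · rw [mem_insert, not_or]; exact ⟨hqb, G2.yB⟩
  · rw [mem_insert, not_or]; exact ⟨hcb, G2.zB⟩
  · intro f hf
    simp only [mem_union] at hf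
    rcases hf with (h | h) | h
    · exact (G1.sub f h).trans (subset_union_left.trans subset_union_left)
    · exact (G2.sub f h).trans (subset_union_right.trans subset_union_left)
    · exact (G3.sub f h).trans subset_union_right
  · rw [card_union_of_disjoint hd, card_union_of_disjoint d12, G1.cS, G2.cS, G3.cS, pow_succ]
    ring
  · have e1 := card_union_add_card_inter W1 W2
    have e2 := card_union_add_card_inter (W1 ∪ W2) W3
    rw [i12, card_insert_of_notMem G1.xB, G1.cB, G1.cW, G2.cW] at e1
    rw [i123, card_insert_of_notMem (by rw [mem_insert, not_or]; exact ⟨G3.yz, G3.yB⟩),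
      card_insert_of_notMem G1.zB, G1.cB, G3.cW] at e2
    have e3 : 3 ^ (k + 1) = 3 * 3 ^ k := by rw [pow_succ]; ring
    omega
  · exact fun U hU T hT hB hf => (main U hU T hT hB hf).1
  · exact fun U hU T hT hB hf => (main U hU T hT hB hf).2.1
  · exact fun U hU T hT hB hf => (main U hU T hT hB hf).2.2
  · have := chain3 G1.cB G3.ch1 G1.ch2 G2.ch1 G3.sub G1.sub G3.BW G1.BW G3.xW G3.yW G3.zW G1.zW
      G1.xW G1.yW G1.zB G1.xB G3.yB G2.xy G3.cW G1.cW d13.symm d23.symm d12
    have e : S3 ∪ S1 ∪ S2 = S1 ∪ S2 ∪ S3 := by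
      rw [union_assoc, union_comm]
    rw [e] at this
    exact this
  · have := chain3 G1.cB G2.ch2 G1.ch1 G3.ch2 G2.sub G1.sub G2.BW G1.BW G2.zW G2.yW G2.xW G1.xW
      G1.zW G1.yW G1.xB G1.zB G2.yB G3.yz.symm G2.cW G1.cW d12.symm d23 d13
    have e : S2 ∪ S1 ∪ S3 = S1 ∪ S2 ∪ S3 := by
      rw [union_comm S2 S1]
    rw [e] at this
    exact this

end Pool.Agent.H66.BES
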