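import Pool.Agent.H66.BES.Defs
import Pool.Agent.H66.BES.Tri
import Pool.Agent.H66.BES.Step
import Pool.Agent.H66.BES.Main
import Pool.Agent.H66.BES.Red
import Pool.Agent.H66.BES.Deg
import Pool.Agent.H66.BES.Grow
import Pool.Agent.H66.BES.Succ

set_option autoImplicit false

namespace Pool.Agent.H66.BES

theorem t_step' : S_step := t_step t_succ t_growth t_mindeg

theorem t_main' : S_main := t_main t_step' (t_lin t_growth)

theorem t_final' : S_final := t_final t_main'

end Pool.Agent.H66.BES
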