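import Mathlib

set_option autoImplicit false

/-!
# Configurations for the Brown–Erdős–Sós problem: tripling

A *configuration of level `k`* has `3 ^ k` edges on `3 ^ k + k + 2` vertices, contains a base `B` of
`k` vertices and three marks `x, y, z` outside the base, and satisfies lower bounds on the size of
its parts (`r0`, `r1`, `r2`) and two building orders (`Chain`).

Given three configurations of level `k` on the same base `B` with marks
`(p, b, r)`, `(p, q, c)`, `(a, q, r)` which share nothing but `B` and `p`, `q`, `r` respectively,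
their union is a configuration of level `k + 1` with base `B ∪ {b}` and marks `(a, q, c)`.
-/

namespace Pool.Agent.H66.BES

open Finset SimpleGraph TripartiteFromTriangles

section

variable {V : Type*} [DecidableEq V]

/-- A building order of the edge set `S` (of size `3 ^ k`): an increasing sequence of sets `c i` with
`i` edges, such that the union of the edges of `c i` together with `B ∪ {x, y}` has at most
`i + k + 2` vertices. -/
def Chain (k : ℕ) (B : Finset V) (x y : V) (S : Finset (Finset V)) : Prop :=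
  ∃ c : ℕ → Finset (Finset V), (∀ i ≤ 3 ^ k, (c i).card = i) ∧
    (∀ i j, i ≤ j → j ≤ 3 ^ k → c i ⊆ c j) ∧ c (3 ^ k) = S ∧
    ∀ i ≤ 3 ^ k, ((c i).biUnion id ∪ (B ∪ {x, y})).card ≤ i + k + 2

/-- A configuration of level `k` with base `B`, marks `x, y, z`, vertex set `W`, edge set `S`. -/
structure Good (k : ℕ) (B : Finset V) (x y z : V) (W : Finset V) (S : Finset (Finset V)) :
    Prop where
  cB : B.card = k
  BW : B ⊆ W
  xW : x ∈ W
  yW : y ∈ W
  zW : z ∈ W
  xB : x ∉ B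
  yB : y ∉ B
  zB : z ∉ B
  xy : x ≠ y
  xz : x ≠ z
  yz : y ≠ z
  sub : ∀ f ∈ S, f ⊆ W
  cS : S.card = 3 ^ k
  cW : W.card = 3 ^ k + k + 2
  r0 : ∀ U ⊆ W, ∀ T ⊆ S, B ⊆ U → (∀ f ∈ T, f ⊆ U) → T.card + k ≤ U.card
  r1 : ∀ U ⊆ W, ∀ T ⊆ S, B ⊆ U → (∀ f ∈ T, f ⊆ U) → ∀ v ∈ U, v ∉ B → T.card + k + 1 ≤ U.card
  r2 : ∀ U ⊆ W, ∀ T ⊆ S, B ⊆ U → (∀ f ∈ T, f ⊆ U) → ∀ m ∈ U, (m = x ∨ m = y ∨ m = z) →
    ∀ v ∈ U, v ∉ B → v ≠ m → T.card + k + 2 ≤ U.card
  ch1 : Chain k B x y S
  ch2 : Chain k B z y S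

/-- A family of configurations of level `k` on the common base `B`, indexed by their marks. -/
def Fam (k : ℕ) (F : Finset (Finset V)) (B : Finset V) (G : Finset (V × V × V))
    (W : V × V × V → Finset V) (S : V × V × V → Finset (Finset V)) : Prop :=
  ∀ t ∈ G, Good k B t.1 t.2.1 t.2.2 (W t) (S t) ∧ S t ⊆ F

/-- a linear family -/
def Sys (k : ℕ) (F : Finset (Finset V)) (B : Finset V) (G : Finset (V × V × V))
    (W : V × V × V → Finset V) (S : V × V × V → Finset (Finset V)) : Prop :=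
  ExplicitDisjoint G ∧ Fam k F B G W S

/-- a family in which the first two marks determine the third and the last two determine the
first -/
def WSys (k : ℕ) (F : Finset (Finset V)) (B : Finset V) (G : Finset (V × V × V))
    (W : V × V × V → Finset V) (S : V × V × V → Finset (Finset V)) : Prop :=
  (∀ a q c c', (a, q, c) ∈ G → (a, q, c') ∈ G → c = c') ∧
    (∀ a a' q c, (a, q, c) ∈ G → (a', q, c) ∈ G → a = a') ∧ Fam k F B G W S

/-- `e` edges of `F` on at most `e + d` vertices -/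
def Conf (F : Finset (Finset V)) (e d : ℕ) : Prop :=
  ∃ T ⊆ F, T.card = e ∧ (T.biUnion id).card ≤ e + d

end

/-! ### The statements -/

/-- a single edge is a configuration of level `0` -/
def S_zero : Prop := ∀ (V : Type) [DecidableEq V] (x y z : V), x ≠ y → x ≠ z → y ≠ z →
  Good 0 ∅ x y z {x, y, z} {{x, y, z}}

/-- tripling -/
def S_succ : Prop := ∀ (V : Type) [DecidableEq V] (k : ℕ) (B : Finset V) (p b r q c a : V)
  (W1 W2 W3 : Finset V) (S1 S2 S3 : Finset (Finset V)),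
  Good k B p b r W1 S1 → Good k B p q c W2 S2 → Good k B a q r W3 S3 →
  W1 ∩ W2 ⊆ insert p B → W2 ∩ W3 ⊆ insert q B → W1 ∩ W3 ⊆ insert r B →
  Good (k + 1) (insert b B) a q c (W1 ∪ W2 ∪ W3) (S1 ∪ S2 ∪ S3)

/-- growth: if configurations can always be attached at a mark and one further vertex, then all
numbers of edges occur with deficiency at most `k + 3` -/
def S_growth : Prop := ∀ (V : Type) [Fintype V] [DecidableEq V] (k e : ℕ) (F : Finset (Finset V))
  (B : Finset V) (G : Finset (V × V × V)) (W : V × V × V → Finset V)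
  (S : V × V × V → Finset (Finset V)), Fam k F B G W S → G.Nonempty →
  (∀ U : Finset V, U.card ≤ e + k + 2 → ∀ t0 ∈ G, W t0 ⊆ U → ∃ t ∈ G, ¬ W t ⊆ U ∧
    ∃ m, (m = t.1 ∨ m = t.2.1 ∨ m = t.2.2) ∧ m ∈ U ∧ ∃ v ∈ U, v ∈ W t ∧ v ∉ B ∧ v ≠ m) →
  Conf F e (k + 3)

/-- a relation with many pairs has a subfamily of large minimum degree -/
def S_mindeg : Prop := ∀ (α : Type) [DecidableEq α] (R : α → α → Prop), (∀ x y, R x y → R y x) →
  ∀ [DecidableRel R], ∀ (M : ℕ) (G : Finset α),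
  2 * M * G.card < ((G ×ˢ G).filter fun p => R p.1 p.2).card →
  ∃ G' ⊆ G, G'.Nonempty ∧ ∀ t ∈ G', M < (G'.filter fun u => R t u).card

/-- the nontrivial triangles of a dense linear triple system -/
def S_tri : Prop := ∀ c : ℝ, 0 < c → ∃ c' : ℝ, 0 < c' ∧ ∃ N : ℕ, ∀ n : ℕ, N ≤ n →
  ∀ F : Finset (Fin n × Fin n × Fin n), ExplicitDisjoint F → c * (n : ℝ) ^ 2 ≤ F.card →
    c' * (n : ℝ) ^ 3 ≤ ((univ : Finset (Fin n × Fin n × Fin n)).filter fun t => t ∉ F ∧
      (∃ z, (t.1, t.2.1, z) ∈ F) ∧ (∃ y, (t.1, y, t.2.2) ∈ F) ∧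
        (∃ x, (x, t.2.1, t.2.2) ∈ F)).card

/-- the step: from a dense linear family of level `k` to a dense family of level `k + 1` -/
def S_step : Prop := ∀ (k e : ℕ) (c : ℝ), 0 < c → ∃ c' : ℝ, 0 < c' ∧ ∃ N : ℕ, ∀ n : ℕ, N ≤ n →
  ∀ (F : Finset (Finset (Fin n))) (B : Finset (Fin n)) (G : Finset (Fin n × Fin n × Fin n))
    (W : Fin n × Fin n × Fin n → Finset (Fin n))
    (S : Fin n × Fin n × Fin n → Finset (Finset (Fin n))), Sys k F B G W S →
    c * (n : ℝ) ^ 2 ≤ G.card → Conf F e (k + 3) ∨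
    ∃ (B' : Finset (Fin n)) (G' : Finset (Fin n × Fin n × Fin n))
      (W' : Fin n × Fin n × Fin n → Finset (Fin n))
      (S' : Fin n × Fin n × Fin n → Finset (Finset (Fin n))), WSys (k + 1) F B' G' W' S' ∧
      c' * (n : ℝ) ^ 2 ≤ G'.card

/-- making the family linear -/
def S_lin : Prop := ∀ (V : Type) [Fintype V] [DecidableEq V] (k e : ℕ) (F : Finset (Finset V))
  (B : Finset V) (G : Finset (V × V × V)) (W : V × V × V → Finset V)
  (S : V × V × V → Finset (Finset V)), WSys k F B G W S →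
  Conf F e (k + 3) ∨ ∃ G' ⊆ G, Sys k F B G' W S ∧ G.card ≤ (e + k + 2) * G'.card

/-- the main theorem for triple systems -/
def S_main : Prop := ∀ (K e : ℕ), e ≤ 3 ^ K → ∀ c : ℝ, 0 < c → ∃ N : ℕ, ∀ n : ℕ, N ≤ n →
  ∀ (G : Finset (Fin n × Fin n × Fin n)), ExplicitDisjoint G →
    (∀ t ∈ G, t.1 ≠ t.2.1 ∧ t.1 ≠ t.2.2 ∧ t.2.1 ≠ t.2.2) →
    c * (n : ℝ) ^ 2 ≤ G.card → Conf (G.image fun t => ({t.1, t.2.1, t.2.2} : Finset (Fin n))) e (K + 2)

/-- the final theorem: for all `r = q + 3` and all `e ≥ 1`, an `r`-uniform hypergraph in which no `e`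
edges lie on at most `(r - 2) e + 2 + ⌈log₃ e⌉` vertices has `o(n²)` edges -/
def S_final : Prop := ∀ (q e : ℕ), 1 ≤ e → ∀ c : ℝ, 0 < c → ∃ N : ℕ, ∀ n : ℕ, N ≤ n →
  ∀ H : Finset (Finset (Fin n)), (∀ f ∈ H, f.card = q + 3) →
    (∀ S ⊆ H, S.card = e → (q + 1) * e + 2 + Nat.clog 3 e < (S.biUnion id).card) →
    (H.card : ℝ) < c * (n : ℝ) ^ 2

end Pool.Agent.H66.BES
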